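import Pool.Agent.N252.TV.L

/-!
Project LL (helper252): finite measures on the line with the regularity inequality: convergence in
total variation, translations, compactness.
-/

set_option autoImplicit false
open MeasureTheory Filter Topology
open scoped ContDiff ENNReal NNReal BoundedContinuousFunction

namespace Pool.Agent.N252.LL

open Pool.Agent.N252.TV

noncomputable section

/-- the regularity inequality -/
def Rg (τ : Measure ℝ) (D : ℝ) : Prop :=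
  ∀ (g : ℝ → ℝ) (a b : ℝ), ContDiff ℝ ∞ g → (∀ x, |g x| ≤ a) → (∀ x, |deriv g x| ≤ b) →
    |∫ x, deriv g x ∂τ| ≤ D * (√(a * b) + a)

lemma sq8 {D ε : ℝ} (D0 : 0 ≤ D) (hε : 0 ≤ ε) (h1 : ε ≤ 1) :
    D * (√(2 * ε * 4) + 2 * ε) ≤ 5 * D * √ε := by
  have s0 := Real.sqrt_nonneg ε
  have ss : √ε * √ε = ε := Real.mul_self_sqrt hε
  have s1 : √ε ≤ 1 := Real.sqrt_le_one.2 h1
  have h1 : √(2 * ε * 4) ≤ 3 * √ε := by
    rw [Real.sqrt_le_left (by positivity), mul_pow, Real.sq_sqrt hε]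
    linarith
  have h2 : 2 * ε ≤ 2 * √ε := by nlinarith
  have h3 : √(2 * ε * 4) + 2 * ε ≤ 5 * √ε := by linarith
  have := mul_le_mul_of_nonneg_left h3 D0
  linarith

/-- the means are close -/
lemma rg_sm {τ : Measure ℝ} {D : ℝ} (D0 : 0 ≤ D) (h : Rg τ D) {f : ℝ → ℝ} (sf : ContDiff ℝ ∞ f)
    (bf : ∀ x, |f x| ≤ 2) {ε : ℝ} (hε : 0 < ε) (h1 : ε ≤ 1) :
    |∫ x, (sm f ε x - f x) ∂τ| ≤ 5 * D * √ε := by
  have hd : deriv (Gc f ε) = fun x => sm f ε x - f x := funext fun x => (Gc_d sf ε x).deriv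
  have k := h (Gc f ε) (2 * ε) 4 (Gc_sm sf ε) (fun x => Gc_bd sf bf hε x) (fun x => by
      rw [hd]
      have h1 := abs_sub (sm f ε x) (f x)
      have h2 := sm_bd sf.continuous bf hε x
      have h3 := bf x
      show |sm f ε x - f x| ≤ 4
      linarith)
  rw [hd] at k
  exact k.trans (sq8 D0 hε.le h1)

/-- **Weak convergence implies convergence in total variation.** -/
theorem tv_full {μ : ℕ → Measure ℝ} [∀ n, IsFiniteMeasure (μ n)] {ν : Measure ℝ}
    [IsFiniteMeasure ν] {D : ℝ} (D0 : 0 ≤ D) (hR : ∀ᶠ n in atTop, Rg (μ n) D)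
    (hw : ∀ g : ℝ →ᵇ ℝ, Tendsto (fun n => ∫ x, g x ∂(μ n)) atTop (𝓝 (∫ x, g x ∂ν)))
    {δ : ℝ} (hδ : 0 < δ) :
    ∀ᶠ n in atTop, ∀ g : ℝ → ℝ, Measurable g → (∀ x, |g x| ≤ 1) →
      |∫ x, g x ∂(μ n) - ∫ x, g x ∂ν| ≤ δ := by
  obtain ⟨d, hd⟩ : ∃ d, d = δ / 5 := ⟨_, rfl⟩
  have d0 : 0 < d := by rw [hd]; positivity
  obtain ⟨ε, hε⟩ : ∃ ε : ℝ, ε = min 1 ((d / (5 * (D + 1))) ^ 2) := ⟨_, rfl⟩
  have ε0 : 0 < ε := by rw [hε]; exact lt_min one_pos (by positivity)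
  have ε1 : ε ≤ 1 := by rw [hε]; exact min_le_left _ _
  have ε2 : √ε ≤ d / (5 * (D + 1)) := by
    rw [Real.sqrt_le_left (by positivity), hε]
    exact min_le_right _ _
  have Db : 5 * D * √ε ≤ d := by
    have h1 := mul_le_mul_of_nonneg_left ε2 (by positivity : 0 ≤ 5 * D)
    refine h1.trans ?_
    have e : 5 * D * (d / (5 * (D + 1))) = D / (D + 1) * d := by field_simp
    rw [e]
    have : D / (D + 1) ≤ 1 := by rw [div_le_one (by positivity)]; linarith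
    nlinarith
  have i1 : ∀ (τ : Measure ℝ) (_ : IsFiniteMeasure τ) (k : ℝ → ℝ), Continuous k →
      (∀ x, |k x| ≤ 2) → Integrable k τ := fun τ _ k ck bk =>
    Integrable.of_bound ck.aestronglyMeasurable 2 (ae_of_all _ bk)
  have hν : ∀ k : ℝ → ℝ, ContDiff ℝ ∞ k → (∀ x, |k x| ≤ 2) → |∫ x, (sm k ε x - k x) ∂ν| ≤ d := by
    intro k sk bk
    have hb : ∀ x, |sm k ε x - k x| ≤ 4 := fun x => by
      have h1 := abs_sub (sm k ε x) (k x)
      have h2 := sm_bd sk.continuous bk ε0 x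
      have h3 := bk x
      linarith
    have h1 := hw (BoundedContinuousFunction.ofNormedAddCommGroup
      (fun x => sm k ε x - k x) ((sm_cont sk.continuous ε).sub sk.continuous) 4 hb)
    exact le_of_tendsto h1.abs (hR.mono fun n hn => (rg_sm D0 hn sk bk ε0 ε1).trans Db)
  have hu := unif_lip hw (K := 2 * 2 / ε) (M := 2) (by positivity) (by norm_num) d0
  filter_upwards [hR, hu] with n o1 o2 g mg g1
  obtain ⟨k, sk, ck, bk, ak⟩ := exists_app (μ n + ν) mg g1 d0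
  have ckc := sk.continuous
  have ig : ∀ τ : Measure ℝ, IsFiniteMeasure τ → Integrable g τ := fun τ _ =>
    Integrable.of_bound mg.aestronglyMeasurable 1 (ae_of_all _ g1)
  have ib : ∀ τ : Measure ℝ, IsFiniteMeasure τ → Integrable (fun x => |g x - k x|) τ :=
    fun τ hτ => ((ig τ hτ).sub (i1 τ hτ k ckc bk)).abs
  rw [integral_add_measure (ib _ inferInstance) (ib _ inferInstance)] at ak
  have p1 : 0 ≤ ∫ x, |g x - k x| ∂(μ n) := integral_nonneg fun x => abs_nonneg _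
  have p2 : 0 ≤ ∫ x, |g x - k x| ∂ν := integral_nonneg fun x => abs_nonneg _
  have st : ∀ τ : Measure ℝ, IsFiniteMeasure τ → |∫ x, (sm k ε x - k x) ∂τ| ≤ d →
      ∫ x, |g x - k x| ∂τ ≤ d → |∫ x, g x ∂τ - ∫ x, sm k ε x ∂τ| ≤ 2 * d := by
    intro τ hτ oτ aτ
    have j1 := ig τ hτ
    have j2 := i1 τ hτ (sm k ε) (sm_cont ckc ε) (sm_bd ckc bk ε0)
    have j3 := i1 τ hτ k ckc bk
    rw [integral_sub j2 j3] at oτ
    have a1 : |∫ x, g x ∂τ - ∫ x, k x ∂τ| ≤ d := by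
      rw [← integral_sub j1 j3]
      exact (abs_integral_le_integral_abs).trans aτ
    have e : ∫ x, g x ∂τ - ∫ x, sm k ε x ∂τ =
      (∫ x, g x ∂τ - ∫ x, k x ∂τ) - (∫ x, sm k ε x ∂τ - ∫ x, k x ∂τ) := by ring
    rw [e]
    have := abs_sub (∫ x, g x ∂τ - ∫ x, k x ∂τ) (∫ x, sm k ε x ∂τ - ∫ x, k x ∂τ)
    linarith
  have s1 := st (μ n) inferInstance ((rg_sm D0 o1 sk bk ε0 ε1).trans Db) (by linarith)
  have s2 := st ν inferInstance (hν k sk bk) (by linarith)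
  have s3 := o2 (sm k ε) (sm_bd ckc bk ε0) (sm_lip ckc bk ε0)
  have e : ∫ x, g x ∂(μ n) - ∫ x, g x ∂ν =
      (∫ x, g x ∂(μ n) - ∫ x, sm k ε x ∂(μ n)) - (∫ x, g x ∂ν - ∫ x, sm k ε x ∂ν) +
      (∫ x, sm k ε x ∂(μ n) - ∫ x, sm k ε x ∂ν) := by ring
  rw [e]
  have h1 := abs_add_le ((∫ x, g x ∂(μ n) - ∫ x, sm k ε x ∂(μ n)) -
    (∫ x, g x ∂ν - ∫ x, sm k ε x ∂ν)) (∫ x, sm k ε x ∂(μ n) - ∫ x, sm k ε x ∂ν)
  have h2 := abs_sub (∫ x, g x ∂(μ n) - ∫ x, sm k ε x ∂(μ n))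
    (∫ x, g x ∂ν - ∫ x, sm k ε x ∂ν)
  rw [hd] at *
  linarith

/-- **Translations.** -/
theorem rg_shift {τ : Measure ℝ} [IsFiniteMeasure τ] {D : ℝ} (D0 : 0 ≤ D) (h : Rg τ D) {t : ℝ}
    (ht : |t| ≤ 1) {g : ℝ → ℝ} (mg : Measurable g) (g1 : ∀ x, |g x| ≤ 1) :
    |∫ x, (g (x + t) - g x) ∂τ| ≤ 5 * D * √|t| := by
  refine le_of_forall_pos_le_add fun η hη => ?_
  have mt : Measurable (fun x : ℝ => x + t) := measurable_id.add_const t
  obtain ⟨σ, hσ⟩ : ∃ σ : Measure ℝ, σ = τ.map (fun x => x + t) := ⟨_, rfl⟩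
  have fσ : IsFiniteMeasure σ := by rw [hσ]; infer_instance
  obtain ⟨k, sk, ck, bk, ak⟩ := exists_app (τ + σ) mg g1 hη
  have ckc := sk.continuous
  have i1 : ∀ (τ : Measure ℝ) (_ : IsFiniteMeasure τ), Integrable k τ := fun τ _ =>
    Integrable.of_bound ckc.aestronglyMeasurable 2 (ae_of_all _ bk)
  have ig : ∀ τ : Measure ℝ, IsFiniteMeasure τ → Integrable g τ := fun τ _ =>
    Integrable.of_bound mg.aestronglyMeasurable 1 (ae_of_all _ g1)
  have ib : ∀ τ : Measure ℝ, IsFiniteMeasure τ → Integrable (fun x => |g x - k x|) τ :=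
    fun τ hτ => ((ig τ hτ).sub (i1 τ hτ)).abs
  rw [integral_add_measure (ib _ inferInstance) (ib _ inferInstance)] at ak
  have d1 : |∫ x, g x ∂τ - ∫ x, k x ∂τ| ≤ ∫ x, |g x - k x| ∂τ := by
    rw [← integral_sub (ig _ inferInstance) (i1 _ inferInstance)]
    exact abs_integral_le_integral_abs
  have d2 : |∫ x, g x ∂σ - ∫ x, k x ∂σ| ≤ ∫ x, |g x - k x| ∂σ := by
    rw [← integral_sub (ig _ fσ) (i1 _ fσ)]
    exact abs_integral_le_integral_abs
  have m1 : ∀ q : ℝ → ℝ, Measurable q → ∫ x, q x ∂σ = ∫ x, q (x + t) ∂τ := fun q mq => by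
    rw [hσ, integral_map mt.aemeasurable mq.aestronglyMeasurable]
  rw [m1 g mg, m1 k ckc.measurable] at d2
  have dk : deriv (fun x => Pm k (x + t) - Pm k x) = fun x => k (x + t) - k x := by
    funext x
    exact (((Pm_d ckc (x + t)).comp_add_const x t).sub (Pm_d ckc x)).deriv
  have key := h (fun x => Pm k (x + t) - Pm k x) (2 * |t|) 4
    (((Pm_sm sk).comp (contDiff_id.add contDiff_const)).sub (Pm_sm sk)) (fun x => by
      have := Pm_lip ckc bk x (x + t)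
      rwa [add_sub_cancel_left] at this) (fun x => by
      rw [dk]
      have h1 := abs_sub (k (x + t)) (k x)
      have h2 := bk (x + t)
      have h3 := bk x
      show |k (x + t) - k x| ≤ 4
      linarith)
  rw [dk] at key
  have key2 := key.trans (sq8 D0 (abs_nonneg t) ht)
  have ikt : Integrable (fun x => k (x + t)) τ :=
    Integrable.of_bound (ckc.comp (continuous_id.add continuous_const)).aestronglyMeasurable 2
      (ae_of_all _ fun x => bk _)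
  have igt : Integrable (fun x => g (x + t)) τ :=
    Integrable.of_bound (mg.comp mt).aestronglyMeasurable 1 (ae_of_all _ fun x => g1 _)
  rw [integral_sub ikt (i1 _ inferInstance)] at key2
  rw [integral_sub igt (ig _ inferInstance)]
  have e : ∫ x, g (x + t) ∂τ - ∫ x, g x ∂τ =
      (∫ x, g (x + t) ∂τ - ∫ x, k (x + t) ∂τ) - (∫ x, g x ∂τ - ∫ x, k x ∂τ) +
      (∫ x, k (x + t) ∂τ - ∫ x, k x ∂τ) := by ring
  rw [e]
  have h1 := abs_add_le ((∫ x, g (x + t) ∂τ - ∫ x, k (x + t) ∂τ) - (∫ x, g x ∂τ - ∫ x, k x ∂τ))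
    (∫ x, k (x + t) ∂τ - ∫ x, k x ∂τ)
  have h2 := abs_sub (∫ x, g (x + t) ∂τ - ∫ x, k (x + t) ∂τ) (∫ x, g x ∂τ - ∫ x, k x ∂τ)
  linarith

/-! ### Compactness -/

lemma prok1 (P : ℕ → ProbabilityMeasure ℝ) {M : ℝ}
    (hM : ∀ n, Integrable (fun x => |x|) (P n : Measure ℝ) ∧ ∫ x, |x| ∂(P n : Measure ℝ) ≤ M) :
    ∃ ψ : ℕ → ℕ, StrictMono ψ ∧ ∃ Q : ProbabilityMeasure ℝ, Tendsto (P ∘ ψ) atTop (𝓝 Q) := by
  have M0 : 0 ≤ M := (integral_nonneg fun x => abs_nonneg x).trans (hM 0).2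
  obtain ⟨w, hw⟩ : ∃ w : ℕ → ℝ≥0, ∀ m, (w m : ℝ) = M / ((m : ℝ) + 1) :=
    ⟨fun m => ⟨M / ((m : ℝ) + 1), by positivity⟩, fun m => rfl⟩
  have w0 : Tendsto w atTop (𝓝 0) := by
    rw [← NNReal.tendsto_coe]
    have h1 : Tendsto (fun m : ℕ => M * (1 / ((m : ℝ) + 1))) atTop (𝓝 (M * 0)) :=
      (tendsto_one_div_add_atTop_nhds_zero_nat).const_mul M
    have e : M * 0 = ((0 : ℝ≥0) : ℝ) := by simp
    rw [e] at h1
    refine h1.congr fun m => ?_
    rw [hw]
    field_simp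
  have hc := isCompact_setOfPred_probabilityMeasure_mass_eq_compl_isCompact_le (E := ℝ)
    (K := fun m : ℕ => Set.Icc (-((m : ℝ) + 1)) ((m : ℝ) + 1)) w0 (fun m => isCompact_Icc)
    (Or.inl inferInstance)
  obtain ⟨Q, -, ψ, hψ, hQ⟩ := hc.tendsto_subseq (x := P) fun n => by
    intro m
    rw [← NNReal.coe_le_coe, hw]
    show ((P n : Measure ℝ) _).toReal ≤ _
    have h1 := mul_meas_ge_le_integral_of_nonneg (μ := (P n : Measure ℝ))
      (ae_of_all _ fun x => abs_nonneg x) (hM n).1 ((m : ℝ) + 1)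
    rw [le_div_iff₀ (by positivity), mul_comm]
    refine le_trans ?_ (h1.trans (hM n).2)
    refine mul_le_mul_of_nonneg_left ?_ (by positivity)
    refine measureReal_mono fun x hx => ?_
    show (m : ℝ) + 1 ≤ |x|
    by_contra hcon
    push Not at hcon
    exact hx (abs_le.1 hcon.le)
  exact ⟨ψ, hψ, Q, hQ⟩

/-- **Compactness in total variation.** -/
theorem rg_cpt {μ : ℕ → Measure ℝ} [∀ n, IsFiniteMeasure (μ n)] {D C : ℝ} (D0 : 0 ≤ D)
    (hR : ∀ n, Rg (μ n) D) (hm : ∀ n, (μ n).real Set.univ ≤ C)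
    (h1 : ∀ n, Integrable (fun x => |x|) (μ n) ∧ ∫ x, |x| ∂(μ n) ≤ C) :
    ∃ ψ : ℕ → ℕ, StrictMono ψ ∧ ∃ ν : Measure ℝ, IsFiniteMeasure ν ∧ ν ≪ volume ∧
      ∀ δ : ℝ, 0 < δ → ∀ᶠ n in atTop, ∀ g : ℝ → ℝ, Measurable g → (∀ x, |g x| ≤ 1) →
        |∫ x, g x ∂(μ (ψ n)) - ∫ x, g x ∂ν| ≤ δ := by
  have C0 : 0 ≤ C := measureReal_nonneg.trans (hm 0)
  -- it suffices to find a weak limit
  suffices H : ∃ ψ : ℕ → ℕ, StrictMono ψ ∧ ∃ ν : Measure ℝ, IsFiniteMeasure ν ∧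
      ∀ g : ℝ →ᵇ ℝ, Tendsto (fun n => ∫ x, g x ∂(μ (ψ n))) atTop (𝓝 (∫ x, g x ∂ν)) by
    obtain ⟨ψ, hψ, ν, fν, hw⟩ := H
    have tv : ∀ δ : ℝ, 0 < δ → ∀ᶠ n in atTop, ∀ g : ℝ → ℝ, Measurable g → (∀ x, |g x| ≤ 1) →
        |∫ x, g x ∂(μ (ψ n)) - ∫ x, g x ∂ν| ≤ δ := fun δ hδ =>
      tv_full D0 (Eventually.of_forall fun n => hR (ψ n)) hw hδ
    refine ⟨ψ, hψ, ν, fν, Measure.AbsolutelyContinuous.mk fun B hB hB0 => ?_, tv⟩
    have e : ∀ τ : Measure ℝ, ∫ x, B.indicator (fun _ => (1 : ℝ)) x ∂τ = τ.real B := fun τ => by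
      rw [integral_indicator hB, setIntegral_const, smul_eq_mul, mul_one]
    have z : ∀ n, (μ n).real B = 0 := by
      intro n
      have h2 := borel_of_reg (μ n) D0 (hR n) hB (by rw [hB0]; exact ENNReal.zero_ne_top)
      have h3 : volume.real B = 0 := by unfold Measure.real; rw [hB0]; rfl
      rw [h3, Real.sqrt_zero, add_zero, mul_zero] at h2
      exact le_antisymm h2 measureReal_nonneg
    have z2 : ν.real B ≤ 0 := by
      refine le_of_forall_pos_le_add fun δ hδ => ?_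
      obtain ⟨n, hn⟩ := (tv δ hδ).exists
      have h4 := hn (B.indicator fun _ => (1 : ℝ)) (measurable_const.indicator hB) fun x => by
        by_cases hx : x ∈ B
        · rw [Set.indicator_of_mem hx, abs_one]
        · rw [Set.indicator_of_notMem hx, abs_zero]; exact zero_le_one
      rw [e, e, z] at h4
      have := (abs_le.1 h4).1
      linarith
    exact (measureReal_eq_zero_iff).1 (le_antisymm z2 measureReal_nonneg)
  obtain ⟨m, -, ψ, hψ, hm'⟩ := (isCompact_Icc (a := (0 : ℝ)) (b := C)).tendsto_subseq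
    (x := fun n => (μ n).real Set.univ) fun n => ⟨measureReal_nonneg, hm n⟩
  have m0 : 0 ≤ m := ge_of_tendsto' hm' fun n => measureReal_nonneg
  rcases m0.eq_or_lt with hm0 | hm0
  · refine ⟨ψ, hψ, 0, inferInstance, fun g => ?_⟩
    rw [integral_zero_measure]
    rw [← hm0] at hm'
    refine squeeze_zero_norm (a := fun n => ‖g‖ * (μ (ψ n)).real Set.univ) (fun n => ?_) ?_
    · have := norm_integral_le_of_norm_le_const (μ := μ (ψ n)) (ae_of_all _ fun x => g.norm_coe_le_norm x)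
      exact this
    · have := hm'.const_mul ‖g‖
      rw [mul_zero] at this
      exact this
  · have ev : ∀ᶠ n in atTop, m / 2 < (μ (ψ n)).real Set.univ :=
      hm'.eventually_const_lt (by linarith)
    obtain ⟨N, hN⟩ := eventually_atTop.1 ev
    obtain ⟨χ, hχ⟩ : ∃ χ : ℕ → ℕ, ∀ n, χ n = ψ (n + N) := ⟨_, fun _ => rfl⟩
    have χm : StrictMono χ := fun a b hab => by
      rw [hχ, hχ]; exact hψ (by omega)
    have χ0 : ∀ n, m / 2 < (μ (χ n)).real Set.univ := fun n => by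
      rw [hχ]; exact hN _ (Nat.le_add_left _ _)
    have χl : Tendsto (fun n => (μ (χ n)).real Set.univ) atTop (𝓝 m) := by
      simp only [hχ]
      exact hm'.comp (tendsto_add_atTop_nat N)
    have ex : ∀ n, ∃ P : ProbabilityMeasure ℝ,
        (P : Measure ℝ) = (μ (χ n) Set.univ)⁻¹ • μ (χ n) := by
      intro n
      have h0 : μ (χ n) Set.univ ≠ 0 := fun h' => by
        have := χ0 n
        unfold Measure.real at this
        rw [h'] at this
        simp at this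
        linarith
      refine ⟨⟨(μ (χ n) Set.univ)⁻¹ • μ (χ n), ⟨?_⟩⟩, rfl⟩
      rw [Measure.smul_apply, smul_eq_mul, ENNReal.inv_mul_cancel h0 (measure_ne_top _ _)]
    choose P hP using ex
    have eP : ∀ n, ∀ f : ℝ → ℝ, ∫ x, f x ∂(P n : Measure ℝ) =
        ((μ (χ n)).real Set.univ)⁻¹ * ∫ x, f x ∂(μ (χ n)) := by
      intro n f
      rw [hP n, integral_smul_measure, ENNReal.toReal_inv, smul_eq_mul]
      rfl
    obtain ⟨κ, hκ, Q, hQ⟩ := prok1 P (M := (m / 2)⁻¹ * C) fun n => by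
      refine ⟨?_, ?_⟩
      · rw [hP n]
        refine (h1 (χ n)).1.smul_measure ?_
        rw [Ne, ENNReal.inv_eq_top]
        intro h'
        have := χ0 n
        unfold Measure.real at this
        rw [h'] at this
        simp at this
        linarith
      · rw [eP]
        have a1 : ((μ (χ n)).real Set.univ)⁻¹ ≤ (m / 2)⁻¹ :=
          inv_anti₀ (by positivity) (χ0 n).le
        exact mul_le_mul a1 (h1 (χ n)).2 (integral_nonneg fun x => abs_nonneg x) (by positivity)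
    refine ⟨χ ∘ κ, χm.comp hκ, ENNReal.ofReal m • (Q : Measure ℝ),
      Measure.smul_finite _ ENNReal.ofReal_ne_top, fun g => ?_⟩
    have h2 := ProbabilityMeasure.tendsto_iff_forall_integral_tendsto.1 hQ g
    have h3 := (χl.comp hκ.tendsto_atTop).mul h2
    rw [integral_smul_measure, ENNReal.toReal_ofReal hm0.le, smul_eq_mul]
    refine h3.congr fun n => ?_
    show (μ (χ (κ n))).real Set.univ * ∫ x, g x ∂(P (κ n) : Measure ℝ) = _
    have hne : (μ (χ (κ n))).real Set.univ ≠ 0 := by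
      have := χ0 (κ n)
      intro h'
      linarith
    rw [eP, ← mul_assoc, mul_inv_cancel₀ hne, one_mul]
    rfl

end

end Pool.Agent.N252.LL
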