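import Pool.Agent.N252.TV.D

/-!
Project LL (helper252): the joint law of a solution and of its energy density, regularity
inequality in a chart.
-/

set_option autoImplicit false
open MeasureTheory Filter Topology Complex
open scoped ContDiff ENNReal

namespace Pool.Agent.N252.LL

open Pool.Agent.W745.RW Pool.Agent.TH294.RS Pool.Agent.TH421.AC Pool.Agent.N252.TV

noncomputable section

variable {B : Set ℂ} {ρ U : ℂ → ℝ} {L : ℝ}

/-- the energy density `h² |∇U|² / ρ` -/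
def en (ρ U : ℂ → ℝ) (h : ℝ) (z : ℂ) : ℝ := h ^ 2 * TV.PP U z / ρ z

lemma en_nn (H : Sol B ρ L U) {h : ℝ} {z : ℂ} (hz : z ∈ B) : 0 ≤ en ρ U h z := by
  have h1 := PP_nn U z
  have h2 := H.pos z hz
  unfold en
  positivity

lemma sen (H : Sol B ρ L U) (h : ℝ) : ContDiffOn ℝ ∞ (en ρ U h) B :=
  (contDiffOn_const.mul H.sPP).div H.sr fun z hz => (H.pos z hz).ne'

/-- the vector field `g(U) κ(E) ∇U` -/
def Y1 (g κ : ℝ → ℝ) (ρ U : ℂ → ℝ) (h : ℝ) (z : ℂ) : ℝ := g (U z) * (κ (en ρ U h z) * dX U z)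
def Y2 (g κ : ℝ → ℝ) (ρ U : ℂ → ℝ) (h : ℝ) (z : ℂ) : ℝ := g (U z) * (κ (en ρ U h z) * dY U z)

lemma sY1 (H : Sol B ρ L U) {g κ : ℝ → ℝ} (hg : ContDiff ℝ ∞ g) (hκ : ContDiff ℝ ∞ κ) (h : ℝ) :
    ContDiffOn ℝ ∞ (Y1 g κ ρ U h) B :=
  (hg.comp_contDiffOn H.sm).mul ((hκ.comp_contDiffOn (sen H h)).mul H.sX)

lemma sY2 (H : Sol B ρ L U) {g κ : ℝ → ℝ} (hg : ContDiff ℝ ∞ g) (hκ : ContDiff ℝ ∞ κ) (h : ℝ) :
    ContDiffOn ℝ ∞ (Y2 g κ ρ U h) B :=
  (hg.comp_contDiffOn H.sm).mul ((hκ.comp_contDiffOn (sen H h)).mul H.sY)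

/-- the divergence -/
lemma divY (H : Sol B ρ L U) {g κ : ℝ → ℝ} (hg : ContDiff ℝ ∞ g) (hκ : ContDiff ℝ ∞ κ) (h : ℝ)
    {z : ℂ} (hz : z ∈ B) : dX (Y1 g κ ρ U h) z + dY (Y2 g κ ρ U h) z =
      deriv g (U z) * (TV.PP U z * κ (en ρ U h z)) + g (U z) *
        (κ (en ρ U h z) * (dX (dX U) z + dY (dY U) z) + deriv κ (en ρ U h z) *
          (h ^ 2 / ρ z * (2 * (dX (dX U) z * dX U z ^ 2 + 2 * (dY (dX U) z * (dX U z * dY U z)) +
            dY (dY U) z * dY U z ^ 2)) -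
          h ^ 2 * TV.PP U z * (fderiv ℝ ρ z 1 * dX U z + fderiv ℝ ρ z I * dY U z) / ρ z ^ 2)) := by
  have rp : 0 < ρ z := H.pos z hz
  have dg : ∀ x, HasDerivAt g (deriv g x) x := fun x =>
    (hg.differentiable (by simp) x).hasDerivAt
  have dκ : ∀ x, HasDerivAt κ (deriv κ x) x := fun x =>
    (hκ.differentiable (by simp) x).hasDerivAt
  have dE : ∀ v, HasDerivAt (fun t : ℝ => en ρ U h (z + t • v))
      (h ^ 2 / ρ z * (2 * (dX U z * fderiv ℝ (dX U) z v + dY U z * fderiv ℝ (dY U) z v)) -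
        h ^ 2 * TV.PP U z * fderiv ℝ ρ z v / ρ z ^ 2) 0 := by
    intro v
    have a1 := lineD (rdA H.op H.sX hz) v
    have a2 := lineD (rdA H.op H.sY hz) v
    have a0 := lineD (rdA H.op H.sr hz) v
    have a3 := (((a1.pow 2).add (a2.pow 2)).const_mul (h ^ 2)).div a0 (by
      simp only [zero_smul, add_zero]; exact rp.ne')
    refine a3.congr_deriv ?_
    simp only [Pi.add_apply, Pi.pow_apply, zero_smul, add_zero, TV.PP]
    field_simp
    push_cast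
    ring
  have gen : ∀ v : ℂ, ∀ G : ℂ → ℝ, DifferentiableAt ℝ G z →
      HasDerivAt (fun t : ℝ => g (U (z + t • v)) * (κ (en ρ U h (z + t • v)) * G (z + t • v)))
      (deriv g (U z) * fderiv ℝ U z v * (κ (en ρ U h z) * G z) + g (U z) *
        (deriv κ (en ρ U h z) * (h ^ 2 / ρ z * (2 * (dX U z * fderiv ℝ (dX U) z v +
          dY U z * fderiv ℝ (dY U) z v)) - h ^ 2 * TV.PP U z * fderiv ℝ ρ z v / ρ z ^ 2) * G z +
          κ (en ρ U h z) * fderiv ℝ G z v)) 0 := by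
    intro v G hG
    have a0 := lineD (rdA H.op H.sm hz) v
    have a3 := lineD hG v
    have a4 : HasDerivAt (fun t : ℝ => g (U (z + t • v))) (deriv g (U z) * fderiv ℝ U z v) 0 := by
      have := (dg (U (z + (0 : ℝ) • v))).comp (0 : ℝ) a0
      simp only [zero_smul, add_zero, Function.comp_def] at this
      exact this
    have a5 : HasDerivAt (fun t : ℝ => κ (en ρ U h (z + t • v))) (deriv κ (en ρ U h z) *
        (h ^ 2 / ρ z * (2 * (dX U z * fderiv ℝ (dX U) z v + dY U z * fderiv ℝ (dY U) z v)) -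
        h ^ 2 * TV.PP U z * fderiv ℝ ρ z v / ρ z ^ 2)) 0 := by
      have := (dκ (en ρ U h (z + (0 : ℝ) • v))).comp (0 : ℝ) (dE v)
      simp only [zero_smul, add_zero, Function.comp_def] at this
      exact this
    have a6 := a4.mul (a5.mul a3)
    refine a6.congr_deriv ?_
    simp only [zero_smul, add_zero, Pi.mul_apply]
  have e1 : dX (Y1 g κ ρ U h) z = _ := fd_line (rdA H.op (sY1 H hg hκ h) hz)
    (gen 1 (dX U) (rdA H.op H.sX hz))
  have e2 : dY (Y2 g κ ρ U h) z = _ := fd_line (rdA H.op (sY2 H hg hκ h) hz)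
    (gen I (dY U) (rdA H.op H.sY hz))
  rw [e1, e2]
  have s1 : fderiv ℝ (dY U) z 1 = dY (dX U) z := (symm2 H.op H.sm hz 1 I).symm
  rw [s1]
  have t1 : fderiv ℝ U z 1 = dX U z := rfl
  have t2 : fderiv ℝ U z I = dY U z := rfl
  have t3 : fderiv ℝ (dX U) z 1 = dX (dX U) z := rfl
  have t4 : fderiv ℝ (dX U) z I = dY (dX U) z := rfl
  have t5 : fderiv ℝ (dY U) z I = dY (dY U) z := rfl
  rw [t1, t2, t3, t4, t5]
  unfold TV.PP
  ring

/-- the pointwise inequality -/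
lemma pt_jet {x y a b c u g k k' rx ry r r0 R R1 h M0 φ M E : ℝ} (h0 : 0 < h) (h1 : h ≤ 1)
    (r00 : 0 < r0) (hr : r0 ≤ r) (hR : r ≤ R) (hrx : |rx| ≤ R1) (hry : |ry| ≤ R1)
    (hk : |k| ≤ 1) (hk' : |k' * (h ^ 2 * (x ^ 2 + y ^ 2) / r)| ≤ 1) (hg : |g| ≤ M0) (hφ : |φ| ≤ M)
    (he : a + c = -((h ^ 2)⁻¹ * (r * u)))
    (hE : 1 + (u ^ 2 + (h ^ 2 * (x ^ 2 + y ^ 2) + h ^ 4 * (a ^ 2 + 2 * b ^ 2 + c ^ 2))) = E) :
    |h ^ 2 * (φ * (g * (k * (a + c) + k' * (h ^ 2 / r * (2 * (a * x ^ 2 + 2 * (b * (x * y)) +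
      c * y ^ 2)) - h ^ 2 * (x ^ 2 + y ^ 2) * (rx * x + ry * y) / r ^ 2))))| ≤
      M * M0 * (R + 1 + R1 / r0) * E := by
  have r0' : 0 < r := by linarith
  have M00 : 0 ≤ M0 := (abs_nonneg _).trans hg
  have MM : 0 ≤ M := (abs_nonneg _).trans hφ
  have R0 : 0 ≤ R := by linarith
  have R10 : 0 ≤ R1 := (abs_nonneg _).trans hrx
  obtain ⟨P, hP⟩ : ∃ P, P = x ^ 2 + y ^ 2 := ⟨_, rfl⟩
  obtain ⟨A, hA⟩ : ∃ A, A = a ^ 2 + 2 * b ^ 2 + c ^ 2 := ⟨_, rfl⟩
  obtain ⟨N, hN⟩ : ∃ N, N = a * x ^ 2 + 2 * (b * (x * y)) + c * y ^ 2 := ⟨_, rfl⟩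
  have P0 : 0 ≤ P := by rw [hP]; positivity
  have A0 : 0 ≤ A := by rw [hA]; positivity
  obtain ⟨α, hα⟩ : ∃ α, α = √A := ⟨_, rfl⟩
  have α0 : 0 ≤ α := by rw [hα]; exact Real.sqrt_nonneg _
  have α2 : α ^ 2 = A := by rw [hα]; exact Real.sq_sqrt A0
  have n1 : |N| ≤ α * P := by
    apply abs_le_of_sq_le_sq _ (by positivity)
    rw [mul_pow, α2, hA, hP, hN]
    nlinarith [sq_nonneg (a * (x * y) - b * x ^ 2), sq_nonneg (b * y ^ 2 - c * (x * y)),
      sq_nonneg (a * y ^ 2 - c * x ^ 2), sq_nonneg (b * (x ^ 2 - y ^ 2) - (a - c) * (x * y)),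
      sq_nonneg (a * y ^ 2 - b * (x * y)), sq_nonneg (b * (x * y) - c * x ^ 2),
      sq_nonneg (b * x ^ 2 - a * (x * y)), sq_nonneg (c * (x * y) - b * y ^ 2)]
  rw [← hP] at hk' hE ⊢
  rw [← hA] at hE
  rw [← hN]
  obtain ⟨e, hee⟩ : ∃ e, e = h ^ 2 * P / r := ⟨_, rfl⟩
  rw [← hee] at hk'
  have e0 : 0 ≤ e := by rw [hee]; positivity
  have hP4 : 0 ≤ h ^ 2 * P := by positivity
  have hA4 : 0 ≤ h ^ 4 * A := by positivity
  have E1 : 1 + h ^ 4 * A ≤ E := by rw [← hE]; nlinarith [sq_nonneg u]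
  have E2 : 1 + u ^ 2 ≤ E := by rw [← hE]; nlinarith
  have E3 : 1 + h ^ 2 * P ≤ E := by rw [← hE]; nlinarith [sq_nonneg u]
  have E0 : 0 ≤ E := by linarith
  -- the first term
  have b1 : |h ^ 2 * (k * (a + c))| ≤ R * E := by
    have e1 : h ^ 2 * (k * (a + c)) = -(k * (r * u)) := by
      rw [he]; field_simp
    rw [e1, abs_neg, abs_mul, abs_mul, abs_of_pos r0']
    have t1 : |u| ≤ E := by
      have := sq_half u
      have : 0 ≤ u ^ 2 := sq_nonneg u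
      linarith
    have t2 : r * |u| ≤ R * E := mul_le_mul hR t1 (abs_nonneg _) R0
    have t3 : |k| * (r * |u|) ≤ 1 * (R * E) := mul_le_mul hk t2 (by positivity) zero_le_one
    linarith
  -- the second term
  have b2 : |h ^ 2 * (k' * (h ^ 2 / r * (2 * N)))| ≤ 1 * E := by
    have e1 : h ^ 2 * (k' * (h ^ 2 / r * (2 * N))) = 2 * (h ^ 4 * (k' / r) * N) := by
      field_simp
    rw [e1, abs_mul, abs_mul, abs_mul, abs_div, abs_of_pos r0', abs_of_pos (by positivity : (0 : ℝ) < 2),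
      abs_of_pos (by positivity : 0 < h ^ 4)]
    have t1 : h ^ 4 * (|k'| / r) * |N| ≤ h ^ 4 * (|k'| / r) * (α * P) :=
      mul_le_mul_of_nonneg_left n1 (by positivity)
    have t2 : h ^ 4 * (|k'| / r) * (α * P) = |k' * e| * (h ^ 2 * α) := by
      rw [abs_mul, abs_of_nonneg e0, hee]
      field_simp
    have t3 : |k' * e| * (h ^ 2 * α) ≤ 1 * (h ^ 2 * α) :=
      mul_le_mul_of_nonneg_right hk' (by positivity)
    have e3 : h ^ 4 * A = (h ^ 2 * α) ^ 2 := by rw [← α2]; ring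
    nlinarith [sq_nonneg (h ^ 2 * α - 1)]
  -- the third term
  have b3 : |h ^ 2 * (k' * (h ^ 2 * P * (rx * x + ry * y) / r ^ 2))| ≤ R1 / r0 * E := by
    have e1 : h ^ 2 * (k' * (h ^ 2 * P * (rx * x + ry * y) / r ^ 2)) =
        (k' * e) * (h * ((rx * (h * x) + ry * (h * y)) / r)) := by
      rw [hee]; field_simp
    rw [e1, abs_mul (k' * e), abs_mul h, abs_div, abs_of_pos h0, abs_of_pos r0']
    have t1 : |rx * (h * x) + ry * (h * y)| ≤ R1 * E := by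
      refine (abs_add_le _ _).trans ?_
      rw [abs_mul rx, abs_mul ry]
      have s1 := sq_half (h * x)
      have s2 := sq_half (h * y)
      have t2 : |rx| * |h * x| ≤ R1 * |h * x| := mul_le_mul_of_nonneg_right hrx (abs_nonneg _)
      have t3 : |ry| * |h * y| ≤ R1 * |h * y| := mul_le_mul_of_nonneg_right hry (abs_nonneg _)
      have t4 : |h * x| + |h * y| ≤ E := by
        have : (h * x) ^ 2 + (h * y) ^ 2 = h ^ 2 * P := by rw [hP]; ring
        linarith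
      have t5 := mul_le_mul_of_nonneg_left t4 R10
      linarith
    have t6 : |rx * (h * x) + ry * (h * y)| / r ≤ R1 * E / r0 :=
      div_le_div₀ (by positivity) t1 r00 hr
    have t7 : h * (|rx * (h * x) + ry * (h * y)| / r) ≤ 1 * (R1 * E / r0) :=
      mul_le_mul h1 t6 (by positivity) zero_le_one
    have t8 : |k' * e| * (h * (|rx * (h * x) + ry * (h * y)| / r)) ≤ 1 * (1 * (R1 * E / r0)) :=
      mul_le_mul hk' t7 (by positivity) zero_le_one
    refine t8.trans (le_of_eq ?_)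
    ring
  have e4 : h ^ 2 * (φ * (g * (k * (a + c) + k' * (h ^ 2 / r * (2 * N) -
      h ^ 2 * P * (rx * x + ry * y) / r ^ 2)))) = φ * (g * (h ^ 2 * (k * (a + c)) +
      h ^ 2 * (k' * (h ^ 2 / r * (2 * N))) -
      h ^ 2 * (k' * (h ^ 2 * P * (rx * x + ry * y) / r ^ 2)))) := by ring
  rw [e4, abs_mul, abs_mul]
  have b4 : |h ^ 2 * (k * (a + c)) + h ^ 2 * (k' * (h ^ 2 / r * (2 * N))) -
      h ^ 2 * (k' * (h ^ 2 * P * (rx * x + ry * y) / r ^ 2))| ≤ (R + 1 + R1 / r0) * E := by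
    refine (abs_sub _ _).trans ?_
    have := abs_add_le (h ^ 2 * (k * (a + c))) (h ^ 2 * (k' * (h ^ 2 / r * (2 * N))))
    linarith
  have b5 := mul_le_mul hg b4 (abs_nonneg _) M00
  have b6 := mul_le_mul hφ b5 (by positivity) MM
  refine b6.trans (le_of_eq ?_)
  ring

/-- **The regularity inequality for the joint law.** -/
theorem jreg (hB : IsOpen B) (hρ : ContDiffOn ℝ ∞ ρ B) (hρ0 : ∀ z ∈ B, 0 < ρ z) {φ : ℂ → ℝ}
    (hφ : TF B φ) : ∃ (C : ℝ), 0 ≤ C ∧ ∀ κ : ℝ → ℝ, ContDiff ℝ ∞ κ → (∀ e, 0 ≤ e → |κ e| ≤ 1) →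
      (∀ e, 0 ≤ e → |deriv κ e * e| ≤ 1) → ∀ (h C3 : ℝ) (U : ℂ → ℝ),
      NSol B ρ (tsupport φ) h C3 U → ∀ (g : ℝ → ℝ) (M0 : ℝ), ContDiff ℝ ∞ g →
        (∀ x, |g x| ≤ M0) →
        |∫ z, φ z * (deriv g (U z) * (h ^ 2 * TV.PP U z * κ (en ρ U h z)))| ≤
          C * (1 + C3) * M0 := by
  obtain ⟨T, hT⟩ : ∃ T : Set ℂ, T = tsupport φ := ⟨_, rfl⟩
  have hTc : IsCompact T := by rw [hT]; exact hφ.2.1
  have hTB : T ⊆ B := by rw [hT]; exact hφ.2.2
  have z0 : ∀ z, z ∉ T → φ z = 0 := fun z hz => image_eq_zero_of_notMem_tsupport (by rwa [hT] at hz)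
  have z1 : ∀ v, ∀ z, z ∉ T → fderiv ℝ φ z v = 0 := fun v z hz => by
    rw [fderiv_of_notMem_tsupport ℝ (by rwa [hT] at hz)]; rfl
  have cφ : Continuous φ := hφ.1.continuous
  have cφ' : ∀ v, Continuous (fun z => fderiv ℝ φ z v) := fun v =>
    ((hφ.1.fderiv_right (m := ∞) le_rfl).clm_apply contDiff_const).continuous
  obtain ⟨M1', b1⟩ := hTc.exists_bound_of_continuousOn cφ.continuousOn
  obtain ⟨M2', b2⟩ := hTc.exists_bound_of_continuousOn (cφ' 1).continuousOn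
  obtain ⟨M3', b3⟩ := hTc.exists_bound_of_continuousOn (cφ' I).continuousOn
  obtain ⟨R', b4⟩ := hTc.exists_bound_of_continuousOn (hρ.continuousOn.mono hTB)
  obtain ⟨R2, b5⟩ := hTc.exists_bound_of_continuousOn ((rsd hB hρ 1).continuousOn.mono hTB)
  obtain ⟨R3, b6⟩ := hTc.exists_bound_of_continuousOn ((rsd hB hρ I).continuousOn.mono hTB)
  obtain ⟨r0, r00, hr0⟩ := exists_low hTc (hρ.continuousOn.mono hTB) fun z hz => hρ0 z (hTB hz)
  obtain ⟨M, hM⟩ : ∃ M : ℝ, M = |M1'| + |M2'| + |M3'| := ⟨_, rfl⟩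
  obtain ⟨R, hR⟩ : ∃ R : ℝ, R = |R'| := ⟨_, rfl⟩
  obtain ⟨R1, hR1⟩ : ∃ R : ℝ, R = |R2| + |R3| := ⟨_, rfl⟩
  have n1 := abs_nonneg M1'
  have n2 := abs_nonneg M2'
  have n3 := abs_nonneg M3'
  have n4 := abs_nonneg R2
  have n5 := abs_nonneg R3
  have MM0 : 0 ≤ M := by rw [hM]; positivity
  have R0 : 0 ≤ R := by rw [hR]; positivity
  have R10 : 0 ≤ R1 := by rw [hR1]; positivity
  have A0 := ar_nn T
  obtain ⟨G, hG⟩ : ∃ G : ℝ, G = R + 1 + R1 / r0 := ⟨_, rfl⟩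
  have G0 : 0 ≤ G := by rw [hG]; positivity
  have bφ : ∀ z, |φ z| ≤ M := fun z => by
    by_cases hz : z ∈ T
    · have := b1 z hz
      rw [Real.norm_eq_abs] at this
      have := le_abs_self M1'
      linarith
    · rw [z0 z hz, abs_zero]; exact MM0
  rw [← hT]
  refine ⟨M * (G + 2) * (ar T + 3), by positivity, fun κ hκ k0 k1 h C3 U H g M0 hg g0 => ?_⟩
  have h0 := H.h0
  have h1 := H.h1
  have C30 := H.c0
  have M00 : 0 ≤ M0 := (abs_nonneg _).trans (g0 0)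
  have W1s := sY1 H.so hg hκ h
  have W2s := sY2 H.so hg hκ h
  obtain ⟨i1, j1, e1⟩ := div0 hB hφ W1s 1
  obtain ⟨i2, j2, e2⟩ := div0 hB hφ W2s I
  have cP : ContinuousOn (TV.PP U) T := H.so.sPP.continuousOn.mono hTB
  have cU : ContinuousOn U T := H.so.sm.continuousOn.mono hTB
  have cE : ContinuousOn (EE U h) T := H.cE hTB
  have cn : ContinuousOn (en ρ U h) T := (sen H.so h).continuousOn.mono hTB
  have cg' : Continuous (deriv g) := hg.continuous_deriv (by simp)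
  have iL : Integrable (fun z => φ z * (deriv g (U z) * (h ^ 2 * TV.PP U z * κ (en ρ U h z)))) :=
    rint hTc (cφ.continuousOn.mul ((cg'.comp_continuousOn cU).mul
      ((continuousOn_const.mul cP).mul (hκ.continuous.comp_continuousOn cn)))) fun z hz => by
        rw [z0 z hz, zero_mul]
  -- the remainder
  obtain ⟨W, hW⟩ : ∃ W : ℂ → ℝ, W = fun z => h ^ 2 * (φ z * fderiv ℝ (Y1 g κ ρ U h) z 1 +
      φ z * fderiv ℝ (Y2 g κ ρ U h) z I) - φ z * (deriv g (U z) *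
        (h ^ 2 * TV.PP U z * κ (en ρ U h z))) := ⟨_, rfl⟩
  have i12 : Integrable (fun z => φ z * fderiv ℝ (Y1 g κ ρ U h) z 1 +
      φ z * fderiv ℝ (Y2 g κ ρ U h) z I) := i1.add i2
  have iW : Integrable W := by rw [hW]; exact (i12.const_mul _).sub iL
  obtain ⟨Q, hQ⟩ : ∃ Q : ℂ → ℝ, Q = T.indicator fun z => M * M0 * G * EE U h z := ⟨_, rfl⟩
  have iQ : Integrable Q := by
    rw [hQ]
    exact ((continuousOn_const.mul cE).integrableOn_compact hTc).integrable_indicator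
      hTc.measurableSet
  have pt : ∀ z, |W z| ≤ Q z := by
    intro z
    by_cases hz : z ∈ T
    · have hzB := hTB hz
      have dv := divY H.so hg hκ h hzB
      have hen : en ρ U h z = h ^ 2 * (dX U z ^ 2 + dY U z ^ 2) / ρ z := rfl
      have rR : ρ z ≤ R := by
        have := b4 z hz
        rw [Real.norm_eq_abs] at this
        have h2 := le_abs_self R'
        have h3 := le_abs_self (ρ z)
        rw [hR]; linarith
      have rx : |fderiv ℝ ρ z 1| ≤ R1 := by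
        have := b5 z hz
        rw [Real.norm_eq_abs] at this
        have := le_abs_self R2
        rw [hR1]; linarith
      have ry : |fderiv ℝ ρ z I| ≤ R1 := by
        have := b6 z hz
        rw [Real.norm_eq_abs] at this
        have := le_abs_self R3
        rw [hR1]; linarith
      have p := pt_jet (x := dX U z) (y := dY U z) (a := dX (dX U) z) (b := dY (dX U) z)
        (c := dY (dY U) z) (u := U z) (g := g (U z)) (k := κ (en ρ U h z))
        (k' := deriv κ (en ρ U h z)) (r := ρ z) (φ := φ z) (E := EE U h z) h0 h1 r00 (hr0 z hz) rR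
        rx ry (k0 _ (en_nn H.so hzB)) (by rw [← hen]; exact k1 _ (en_nn H.so hzB)) (g0 (U z))
        (bφ z) (H.so.eq z hzB) rfl
      rw [hQ, Set.indicator_of_mem hz, hG]
      refine le_trans (le_of_eq ?_) p
      congr 1
      have e3 : φ z * fderiv ℝ (Y1 g κ ρ U h) z 1 + φ z * fderiv ℝ (Y2 g κ ρ U h) z I =
          φ z * (dX (Y1 g κ ρ U h) z + dY (Y2 g κ ρ U h) z) := by
        simp only [dX, dY]; ring
      rw [hW]
      show h ^ 2 * (φ z * fderiv ℝ (Y1 g κ ρ U h) z 1 + φ z * fderiv ℝ (Y2 g κ ρ U h) z I) -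
        φ z * (deriv g (U z) * (h ^ 2 * TV.PP U z * κ (en ρ U h z))) = _
      rw [e3, dv]
      unfold TV.PP
      ring
    · rw [hW, hQ, Set.indicator_of_notMem hz]
      show |h ^ 2 * (φ z * fderiv ℝ (Y1 g κ ρ U h) z 1 + φ z * fderiv ℝ (Y2 g κ ρ U h) z I) -
        φ z * (deriv g (U z) * (h ^ 2 * TV.PP U z * κ (en ρ U h z)))| ≤ 0
      rw [z0 z hz]
      simp
  have id1 : ∫ z, φ z * (deriv g (U z) * (h ^ 2 * TV.PP U z * κ (en ρ U h z))) =
      h ^ 2 * (-(∫ z, fderiv ℝ φ z 1 * Y1 g κ ρ U h z) + -∫ z, fderiv ℝ φ z I * Y2 g κ ρ U h z) -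
        ∫ z, W z := by
    have e : ∫ z, W z = h ^ 2 * (-(∫ z, fderiv ℝ φ z 1 * Y1 g κ ρ U h z) +
        -∫ z, fderiv ℝ φ z I * Y2 g κ ρ U h z) -
        ∫ z, φ z * (deriv g (U z) * (h ^ 2 * TV.PP U z * κ (en ρ U h z))) := by
      rw [hW, ← e1, ← e2, ← integral_add i1 i2, ← integral_const_mul]
      exact integral_sub (i12.const_mul _) iL
    linarith
  have cW1 : ContinuousOn (Y1 g κ ρ U h) T := W1s.continuousOn.mono hTB
  have cW2 : ContinuousOn (Y2 g κ ρ U h) T := W2s.continuousOn.mono hTB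
  have bt : ∀ (c x : ℝ) (z : ℂ), z ∈ T → |c| ≤ M → x ^ 2 ≤ TV.PP U z →
      |h ^ 2 * (c * (g (U z) * (κ (en ρ U h z) * x)))| ≤ M * M0 * EE U h z := by
    intro c x z hz hc hx
    have e : h ^ 2 * (c * (g (U z) * (κ (en ρ U h z) * x))) =
      c * (g (U z) * (κ (en ρ U h z) * (h * (h * x)))) := by ring
    rw [e, abs_mul, abs_mul, abs_mul, abs_mul h, abs_of_pos h0]
    have s1 : |h * x| ≤ EE U h z := by
      have := sq_half (h * x)
      have e5 : EE U h z = 1 + (U z ^ 2 + (h ^ 2 * TV.PP U z + h ^ 4 * AA U z)) := rfl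
      have h4 : 0 ≤ h ^ 4 * AA U z := by have := AA_nn U z; positivity
      have h5 : (h * x) ^ 2 ≤ h ^ 2 * TV.PP U z := by
        rw [mul_pow]; exact mul_le_mul_of_nonneg_left hx (sq_nonneg h)
      have := PP_nn U z
      nlinarith [sq_nonneg (U z), sq_nonneg (h * x)]
    have t1 : h * |h * x| ≤ 1 * EE U h z := mul_le_mul h1 s1 (abs_nonneg _) zero_le_one
    have t2 : |κ (en ρ U h z)| * (h * |h * x|) ≤ 1 * (1 * EE U h z) :=
      mul_le_mul (k0 _ (en_nn H.so (hTB hz))) t1 (by positivity) zero_le_one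
    have t3 := mul_le_mul (g0 (U z)) t2 (by positivity) M00
    have t4 := mul_le_mul hc t3 (by positivity) MM0
    refine t4.trans (le_of_eq ?_)
    ring
  have B1 : ∀ (v : ℂ) (Y F : ℂ → ℝ), ContinuousOn Y T → (∀ z ∈ T, |fderiv ℝ φ z v| ≤ M) →
      (∀ z, Y z = g (U z) * (κ (en ρ U h z) * F z)) → (∀ z, F z ^ 2 ≤ TV.PP U z) →
      |h ^ 2 * ∫ z, fderiv ℝ φ z v * Y z| ≤ M * M0 * (ar T + 3 * C3) := by
    intro v Y F cY bv hY hF
    rw [← integral_const_mul]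
    refine abs_le'.2 ⟨?_, ?_⟩
    · refine H.bd hTc hTB (F := fun z => h ^ 2 * (fderiv ℝ φ z v * Y z)) (by positivity)
        (continuousOn_const.mul ((cφ' v).continuousOn.mul cY)) (fun z hz => by
          rw [z1 v z hz]; simp) fun z hz => ?_
      refine (le_abs_self _).trans ?_
      rw [hY]
      exact bt _ _ z hz (bv z hz) (hF z)
    · rw [← integral_neg]
      refine H.bd hTc hTB (F := fun z => -(h ^ 2 * (fderiv ℝ φ z v * Y z))) (by positivity)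
        (continuousOn_const.mul ((cφ' v).continuousOn.mul cY)).neg (fun z hz => by
          rw [z1 v z hz]; simp) fun z hz => ?_
      refine (neg_le_abs _).trans ?_
      rw [hY]
      exact bt _ _ z hz (bv z hz) (hF z)
  have c1 := B1 1 (Y1 g κ ρ U h) (dX U) cW1 (fun z hz => by
      have := b2 z hz
      rw [Real.norm_eq_abs] at this
      have := le_abs_self M2'
      linarith) (fun z => rfl) fun z => by unfold TV.PP; nlinarith [sq_nonneg (dY U z)]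
  have c2 := B1 I (Y2 g κ ρ U h) (dY U) cW2 (fun z hz => by
      have := b3 z hz
      rw [Real.norm_eq_abs] at this
      have := le_abs_self M3'
      linarith) (fun z => rfl) fun z => by unfold TV.PP; nlinarith [sq_nonneg (dX U z)]
  have c3 : |∫ z, W z| ≤ M * M0 * G * (ar T + 3 * C3) := by
    refine (abs_integral_le_integral_abs).trans ((integral_mono iW.abs iQ pt).trans ?_)
    rw [hQ, integral_indicator hTc.measurableSet, integral_const_mul]
    exact mul_le_mul_of_nonneg_left (H.iE hTc hTB) (by positivity)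
  rw [id1]
  have e6 : h ^ 2 * (-(∫ z, fderiv ℝ φ z 1 * Y1 g κ ρ U h z) +
      -∫ z, fderiv ℝ φ z I * Y2 g κ ρ U h z) - ∫ z, W z =
      -(h ^ 2 * ∫ z, fderiv ℝ φ z 1 * Y1 g κ ρ U h z) -
        (h ^ 2 * ∫ z, fderiv ℝ φ z I * Y2 g κ ρ U h z) - ∫ z, W z := by ring
  rw [e6]
  have f1 := abs_sub (-(h ^ 2 * ∫ z, fderiv ℝ φ z 1 * Y1 g κ ρ U h z) -
        (h ^ 2 * ∫ z, fderiv ℝ φ z I * Y2 g κ ρ U h z)) (∫ z, W z)
  have f2 := abs_sub (-(h ^ 2 * ∫ z, fderiv ℝ φ z 1 * Y1 g κ ρ U h z))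
        (h ^ 2 * ∫ z, fderiv ℝ φ z I * Y2 g κ ρ U h z)
  rw [abs_neg] at f2
  refine f1.trans ?_
  have f3 : M * M0 * (ar T + 3 * C3) + M * M0 * (ar T + 3 * C3) + M * M0 * G * (ar T + 3 * C3) =
      M * M0 * (G + 2) * (ar T + 3 * C3) := by ring
  have f4 : M * M0 * (G + 2) * (ar T + 3 * C3) ≤
      M * M0 * (G + 2) * ((ar T + 3) * (1 + C3)) := by
    refine mul_le_mul_of_nonneg_left ?_ (by positivity)
    nlinarith [mul_nonneg A0 C30]
  have f5 : M * M0 * (G + 2) * ((ar T + 3) * (1 + C3)) =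
      M * (G + 2) * (ar T + 3) * (1 + C3) * M0 := by ring
  linarith

end

end Pool.Agent.N252.LL
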