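import Pool.Agent.N252.LL.S

/-!
Project LL (helper252): laws of first jets, the abstract theorems.
-/

set_option autoImplicit false
open MeasureTheory Filter Topology
open scoped ContDiff ENNReal NNReal BoundedContinuousFunction

namespace Pool.Agent.N252.LL

open Pool.Agent.N252.TV

noncomputable section

/-- laws of first jets -/
structure Jets (κ : ℕ → Measure (ℝ × ℝ)) (V C : ℝ) : Prop where
  fin : ∀ n, IsFiniteMeasure (κ n)
  v0 : 0 < V
  c0 : 0 ≤ C
  mass : ∀ n, (κ n).real Set.univ = V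
  nn : ∀ n, ∀ᵐ p ∂(κ n), 0 ≤ p.2
  ie : ∀ n, Integrable (fun p : ℝ × ℝ => p.2) (κ n)
  en : ∀ n, ∫ p, p.2 ∂(κ n) ≤ C
  isq : ∀ n, Integrable (fun p : ℝ × ℝ => p.1 ^ 2) (κ n)
  sq : ∀ n, ∫ p, p.1 ^ 2 ∂(κ n) ≤ C
  reg : ∃ D, 0 ≤ D ∧ ∀ᶠ n in atTop, ∀ k : ℝ → ℝ, ContDiff ℝ ∞ k → (∀ e, 0 ≤ e → |k e| ≤ 1) →
    (∀ e, 0 ≤ e → |deriv k e * e| ≤ 1) → ∀ (g : ℝ → ℝ) (a b : ℝ), ContDiff ℝ ∞ g →
      (∀ x, |g x| ≤ a) → (∀ x, |deriv g x| ≤ b) →
      |∫ p, (p.2 * k p.2) * deriv g p.1 ∂(κ n)| ≤ D * a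
  thr : ∃ D, 0 ≤ D ∧ ∀ᶠ n in atTop, ∀ (g : ℝ → ℝ) (a b : ℝ), ContDiff ℝ ∞ g →
      (∀ x, |g x| ≤ a) → (∀ x, |deriv g x| ≤ b) →
      |∫ p, th p.1 * deriv g p.1 ∂(κ n)| ≤ D * (√(a * b) + a)

variable {κ : ℕ → Measure (ℝ × ℝ)} {ν : Measure (ℝ × ℝ)} {V C : ℝ}

/-- weak convergence -/
def Wk (κ : ℕ → Measure (ℝ × ℝ)) (ν : Measure (ℝ × ℝ)) : Prop :=
  ∀ F : (ℝ × ℝ) →ᵇ ℝ, Tendsto (fun n => ∫ p, F p ∂(κ n)) atTop (𝓝 (∫ p, F p ∂ν))

lemma Jets.nnν [IsFiniteMeasure ν] (H : Jets κ V C) (hw : Wk κ ν) : ∀ᵐ p ∂ν, 0 ≤ p.2 := by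
  obtain ⟨F, hF⟩ : ∃ F : ℝ × ℝ → ℝ, F = fun p => min (max (-p.2) 0) 1 := ⟨_, rfl⟩
  have cF : Continuous F := by rw [hF]; fun_prop
  have F0 : ∀ p, 0 ≤ F p := fun p => by rw [hF]; exact le_min (le_max_right _ _) zero_le_one
  have F1 : ∀ p, F p ≤ 1 := fun p => by rw [hF]; exact min_le_right _ _
  have Fz : ∀ p : ℝ × ℝ, 0 ≤ p.2 → F p = 0 := fun p hp => by
    rw [hF]
    show min (max (-p.2) 0) 1 = 0
    rw [max_eq_right (by linarith), min_eq_left zero_le_one]
  have h1 := hw (BoundedContinuousFunction.ofNormedAddCommGroup F cF 1 fun p => by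
    rw [Real.norm_eq_abs, abs_of_nonneg (F0 p)]; exact F1 p)
  have h2 : ∀ n, ∫ p, F p ∂(κ n) = 0 := fun n => by
    rw [integral_congr_ae (g := fun _ => (0 : ℝ)) ((H.nn n).mono fun p hp => Fz p hp)]
    simp
  have h3 : Tendsto (fun n => ∫ p, F p ∂(κ n)) atTop (𝓝 (∫ p, F p ∂ν)) := h1
  simp only [h2] at h3
  have h4 : ∫ p, F p ∂ν = 0 := tendsto_nhds_unique h3 tendsto_const_nhds
  have iF : Integrable F ν := Integrable.of_bound cF.aestronglyMeasurable 1 (ae_of_all _ fun p => by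
    rw [Real.norm_eq_abs, abs_of_nonneg (F0 p)]; exact F1 p)
  have h5 := (integral_eq_zero_iff_of_nonneg F0 iF).1 h4
  filter_upwards [h5] with p hp
  by_contra hcon
  push Not at hcon
  have : 0 < F p := by
    rw [hF]
    exact lt_min (lt_of_lt_of_le (by linarith) (le_max_left _ _)) one_pos
  rw [hp] at this
  exact lt_irrefl _ this

lemma Jets.eν [IsFiniteMeasure ν] (H : Jets κ V C) (hw : Wk κ ν) :
    Integrable (fun p : ℝ × ℝ => p.2) ν ∧ ∫ p, p.2 ∂ν ≤ C := by
  have C0 := H.c0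
  obtain ⟨F, hF⟩ : ∃ F : ℕ → ℝ × ℝ → ℝ, ∀ m p, F m p = min |p.2| m := ⟨_, fun _ _ => rfl⟩
  have cF : ∀ m, Continuous (F m) := fun m => by
    have : F m = fun p : ℝ × ℝ => min |p.2| m := funext (hF m)
    rw [this]; fun_prop
  have F0 : ∀ m p, 0 ≤ F m p := fun m p => by
    rw [hF]; exact le_min (abs_nonneg _) (Nat.cast_nonneg _)
  have F1 : ∀ m p, F m p ≤ m := fun m p => by rw [hF]; exact min_le_right _ _
  have Fa : ∀ m p, |F m p| ≤ m := fun m p => by rw [abs_of_nonneg (F0 m p)]; exact F1 m p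
  have h1 : ∀ m, ∫ p, F m p ∂ν ≤ C := by
    intro m
    have h2 : Tendsto (fun n => ∫ p, F m p ∂(κ n)) atTop (𝓝 (∫ p, F m p ∂ν)) :=
      hw (BoundedContinuousFunction.ofNormedAddCommGroup (F m) (cF m) m (Fa m))
    refine le_of_tendsto' h2 fun n => ?_
    have := H.fin n
    refine le_trans (integral_mono_ae (Integrable.of_bound (cF m).aestronglyMeasurable m
      (ae_of_all _ (Fa m))) (H.ie n) ?_) (H.en n)
    filter_upwards [H.nn n] with p hp
    rw [hF, abs_of_nonneg hp]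
    exact min_le_left _ _
  have h2 : ∫⁻ p : ℝ × ℝ, ENNReal.ofReal |p.2| ∂ν ≤ ENNReal.ofReal C := by
    have e : ∀ p : ℝ × ℝ, ENNReal.ofReal |p.2| =
        liminf (fun m : ℕ => ENNReal.ofReal (F m p)) atTop := by
      intro p
      refine (Tendsto.liminf_eq ?_).symm
      refine tendsto_const_nhds.congr' ?_
      filter_upwards [eventually_ge_atTop ⌈|p.2|⌉₊] with m hm
      rw [hF, min_eq_left ((Nat.le_ceil _).trans (by exact_mod_cast hm))]
    simp only [e]
    refine (lintegral_liminf_le fun m => (cF m).measurable.ennreal_ofReal).trans ?_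
    refine liminf_le_of_frequently_le' (Frequently.of_forall fun m => ?_)
    rw [← ofReal_integral_eq_lintegral_ofReal (Integrable.of_bound (cF m).aestronglyMeasurable m
      (ae_of_all _ (Fa m))) (ae_of_all _ (F0 m))]
    exact ENNReal.ofReal_le_ofReal (h1 m)
  have i1 : Integrable (fun p : ℝ × ℝ => |p.2|) ν := by
    refine ⟨(continuous_abs.comp continuous_snd).aestronglyMeasurable, ?_⟩
    rw [hasFiniteIntegral_iff_ofReal (ae_of_all _ fun p => abs_nonneg _)]
    exact lt_of_le_of_lt h2 ENNReal.ofReal_lt_top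
  have i2 : Integrable (fun p : ℝ × ℝ => p.2) ν :=
    i1.mono' continuous_snd.aestronglyMeasurable (ae_of_all _ fun p => le_rfl)
  refine ⟨i2, ?_⟩
  rw [← ofReal_integral_eq_lintegral_ofReal i1 (ae_of_all _ fun p => abs_nonneg _)] at h2
  have h3 : ∫ p : ℝ × ℝ, |p.2| ∂ν ≤ C := (ENNReal.ofReal_le_ofReal_iff C0).1 h2
  exact (integral_mono i2 i1 fun p => le_abs_self _).trans h3

/-- smooth weights -/
lemma Jets.smooth [IsFiniteMeasure ν] (H : Jets κ V C) (hw : Wk κ ν) {k : ℝ → ℝ}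
    (sk : ContDiff ℝ ∞ k) {K : ℝ} (K0 : 0 < K) (k0 : ∀ e, 0 ≤ k e) (k1 : ∀ e, 0 ≤ e → k e ≤ K)
    (k2 : ∀ e, 0 ≤ e → |deriv k e * e| ≤ K) (k3 : ∀ e, 0 ≤ e → e * k e ≤ K) :
    TVw κ ν (fun p => |p.2| * k |p.2|) ∧ ∀ N : Set ℝ, MeasurableSet N → volume N = 0 →
      ν {p | p.1 ∈ N ∧ |p.2| * k |p.2| ≠ 0} = 0 := by
  have := H.fin
  obtain ⟨D, D0, hD⟩ := H.reg
  have cW : Continuous fun p : ℝ × ℝ => |p.2| * k |p.2| :=
    (continuous_abs.comp continuous_snd).mul (sk.continuous.comp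
      (continuous_abs.comp continuous_snd))
  have W0 : ∀ p : ℝ × ℝ, 0 ≤ |p.2| * k |p.2| := fun p => mul_nonneg (abs_nonneg _) (k0 _)
  refine jet_tv0 hw cW W0 (K := K) (fun p => by
    rw [abs_of_nonneg (W0 p)]; exact k3 _ (abs_nonneg _)) (D := K * D) (by positivity)
    (hD.mono fun n hn g a b sg ga gb => ?_)
  have a0 : 0 ≤ a := (abs_nonneg _).trans (ga 0)
  have mg : Measurable (deriv g) := (sg.continuous_deriv (by simp)).measurable
  rw [wl_int cW.measurable W0 mg]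
  have dk : deriv (fun e => K⁻¹ * k e) = fun e => K⁻¹ * deriv k e := by
    funext e
    exact deriv_const_mul _ (sk.differentiable (by simp) e)
  have h1 := hn (fun e => K⁻¹ * k e) (contDiff_const.mul sk) (fun e he => by
      rw [abs_mul, abs_of_pos (inv_pos.2 K0), abs_of_nonneg (k0 e), inv_mul_le_iff₀ K0, mul_one]
      exact k1 e he) (fun e he => by
      rw [dk]
      show |K⁻¹ * deriv k e * e| ≤ 1
      rw [mul_assoc, abs_mul, abs_of_pos (inv_pos.2 K0), inv_mul_le_iff₀ K0, mul_one]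
      exact k2 e he) g a b sg ga gb
  have e1 : ∫ p, |p.2| * k |p.2| * deriv g p.1 ∂(κ n) =
      K * ∫ p, (p.2 * (K⁻¹ * k p.2)) * deriv g p.1 ∂(κ n) := by
    rw [← integral_const_mul]
    refine integral_congr_ae ((H.nn n).mono fun p hp => ?_)
    show |p.2| * k |p.2| * deriv g p.1 = K * ((p.2 * (K⁻¹ * k p.2)) * deriv g p.1)
    rw [abs_of_nonneg hp]
    field_simp
  rw [e1, abs_mul, abs_of_pos K0]
  have h2 := mul_le_mul_of_nonneg_left h1 K0.le
  have h3 := Real.sqrt_nonneg (a * b)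
  have h4 : 0 ≤ K * D * √(a * b) := by positivity
  linarith

/-- growth of the weight -/
lemma w_bd {w : ℝ → ℝ} (cw : Continuous w) (wi : Tendsto (fun e => w e / e) atTop (𝓝 0)) :
    ∃ K : ℝ, 0 ≤ K ∧ ∀ e, 0 ≤ e → |w e| ≤ K * (1 + e) := by
  have h1 : ∀ᶠ e in atTop, |w e / e| < 1 := by
    have := wi.abs
    rw [abs_zero] at this
    exact this.eventually_lt_const one_pos
  obtain ⟨R, h2⟩ := eventually_atTop.1 h1
  obtain ⟨S, hS⟩ := (isCompact_Icc (a := (0 : ℝ)) (b := max R 1)).exists_bound_of_continuousOn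
    cw.continuousOn
  refine ⟨|S| + 1, by positivity, fun e he => ?_⟩
  rcases le_total e (max R 1) with h | h
  · have h3 := hS e ⟨he, h⟩
    rw [Real.norm_eq_abs] at h3
    have h4 := le_abs_self S
    have h5 : 0 ≤ |S| * e := by positivity
    nlinarith
  · have e1 : 1 ≤ e := (le_max_right _ _).trans h
    have h3 := h2 e ((le_max_left _ _).trans h)
    rw [abs_div, abs_of_nonneg he, div_lt_one (by linarith)] at h3
    have h5 : 0 ≤ |S| * (1 + e) := by positivity
    nlinarith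

lemma w_int {w : ℝ → ℝ} (cw : Continuous w) (wi : Tendsto (fun e => w e / e) atTop (𝓝 0))
    {τ : Measure (ℝ × ℝ)} [IsFiniteMeasure τ] (nn : ∀ᵐ p ∂τ, 0 ≤ p.2)
    (ie : Integrable (fun p : ℝ × ℝ => p.2) τ) : Integrable (fun p : ℝ × ℝ => w p.2) τ := by
  obtain ⟨K, K0, hK⟩ := w_bd cw wi
  refine (((integrable_const (1 : ℝ)).add ie).const_mul K).mono'
    (cw.comp continuous_snd).aestronglyMeasurable (nn.mono fun p hp => ?_)
  exact hK _ hp

/-- nonnegative weights -/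
lemma Jets.tvp [IsFiniteMeasure ν] (H : Jets κ V C) (hw : Wk κ ν) {w : ℝ → ℝ} (cw : Continuous w)
    (w0 : w 0 = 0) (wn : ∀ e, 0 ≤ w e) (wi : Tendsto (fun e => w e / e) atTop (𝓝 0)) :
    TVw κ ν fun p => w p.2 := by
  have := H.fin
  have nν := H.nnν hw
  have eν := H.eν hw
  have mν : ν.real Set.univ = V := by
    have h1 := hw (BoundedContinuousFunction.const _ 1)
    simp only [BoundedContinuousFunction.const_apply, integral_const, smul_eq_mul, mul_one,
      H.mass] at h1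
    exact (tendsto_nhds_unique h1 tendsto_const_nhds)
  have sm : ∀ τ : Measure (ℝ × ℝ), IsFiniteMeasure τ → τ.real Set.univ = V →
      Integrable (fun p : ℝ × ℝ => p.2) τ → ∫ p, p.2 ∂τ ≤ C →
      Integrable (fun p : ℝ × ℝ => 1 + p.2) τ ∧ ∫ p, (1 + p.2) ∂τ ≤ V + C := by
    intro τ _ h1 h2 h3
    refine ⟨(integrable_const (1 : ℝ)).add h2, ?_⟩
    rw [integral_add (integrable_const (1 : ℝ)) h2, integral_const, smul_eq_mul, mul_one, h1]
    linarith
  have s1 := fun n => sm (κ n) (H.fin n) (H.mass n) (H.ie n) (H.en n)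
  have s2 := sm ν inferInstance mν eν.1 eν.2
  refine TVw.approx (by have := H.v0; have := H.c0; positivity) H.nn nν (fun n => (s1 n).1) s2.1
    (fun n => (s1 n).2) s2.2 (fun n => w_int cw wi (H.nn n) (H.ie n)) (w_int cw wi nν eν.1)
    fun η hη => ?_
  obtain ⟨g, sg, kg, hg⟩ := approx_w cw w0 wn wi hη
  obtain ⟨G', hG'⟩ := kg.exists_bound_of_continuous sg.continuous
  have cg' : Continuous (deriv g) := sg.continuous_deriv (by simp)
  obtain ⟨L', hL'⟩ := kg.deriv.exists_bound_of_continuous cg'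
  obtain ⟨R', hR'⟩ := kg.isCompact.isBounded.exists_norm_le
  obtain ⟨G, hG⟩ : ∃ G, G = |G'| + 1 := ⟨_, rfl⟩
  obtain ⟨L, hL⟩ : ∃ L, L = |L'| + 1 := ⟨_, rfl⟩
  obtain ⟨R, hR⟩ : ∃ R, R = |R'| + 1 := ⟨_, rfl⟩
  have G0 : 1 ≤ G := by rw [hG]; linarith [abs_nonneg G']
  have L0 : 1 ≤ L := by rw [hL]; linarith [abs_nonneg L']
  have R0 : 1 ≤ R := by rw [hR]; linarith [abs_nonneg R']
  have gG : ∀ e, |g e| ≤ G := fun e => by
    have := hG' e
    rw [Real.norm_eq_abs] at this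
    rw [hG]; linarith [le_abs_self G']
  have gL : ∀ e, |deriv g e| ≤ L := fun e => by
    have := hL' e
    rw [Real.norm_eq_abs] at this
    rw [hL]; linarith [le_abs_self L']
  have gR : ∀ e, 0 ≤ e → g e ≠ 0 → e ≤ R := fun e he h => by
    have := hR' e (subset_tsupport _ h)
    rw [Real.norm_eq_abs, abs_of_nonneg he] at this
    rw [hR]; linarith [le_abs_self R']
  have sk : ContDiff ℝ ∞ fun e => g e ^ 2 := sg.pow 2
  have dk : ∀ e, deriv (fun e => g e ^ 2) e = 2 * g e * deriv g e := fun e => by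
    have h1 := ((sg.differentiable (by simp) e).hasDerivAt.pow 2).deriv
    have e2 : (g ^ 2 : ℝ → ℝ) = fun e => g e ^ 2 := rfl
    rw [e2] at h1
    rw [h1]
    push_cast
    ring
  obtain ⟨K, hK⟩ : ∃ K, K = 2 * G ^ 2 * L * R := ⟨_, rfl⟩
  have g2 : ∀ e, g e ^ 2 ≤ G ^ 2 := fun e => by
    rw [← sq_abs (g e)]; exact pow_le_pow_left₀ (abs_nonneg _) (gG e) 2
  have G2 : 1 ≤ G ^ 2 := by nlinarith
  have LR : 1 ≤ L * R := by nlinarith
  have GG : G ^ 2 ≤ K := by rw [hK]; nlinarith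
  have GR : G ^ 2 * R ≤ K := by
    have : G ^ 2 * R * 1 ≤ G ^ 2 * R * (2 * L) :=
      mul_le_mul_of_nonneg_left (by linarith) (by positivity)
    rw [hK]; linarith
  have K0 : 0 < K := by rw [hK]; positivity
  have k3 : ∀ e, 0 ≤ e → e * g e ^ 2 ≤ K := fun e he => by
    by_cases h : g e = 0
    · rw [h]; simp; exact K0.le
    · have h1 := gR e he h
      have h2 := mul_le_mul h1 (g2 e) (sq_nonneg _) (by positivity)
      linarith
  have k2 : ∀ e, 0 ≤ e → |deriv (fun e => g e ^ 2) e * e| ≤ K := fun e he => by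
    rw [dk]
    by_cases h : g e = 0
    · rw [h]; simp; exact K0.le
    · have h1 := gR e he h
      rw [abs_mul, abs_mul, abs_mul, abs_of_nonneg he, abs_of_pos (by norm_num : (0 : ℝ) < 2)]
      have h2 : 2 * |g e| * |deriv g e| ≤ 2 * G * L :=
        mul_le_mul (by linarith [gG e]) (gL e) (abs_nonneg _) (by positivity)
      have h3 : 2 * |g e| * |deriv g e| * e ≤ 2 * G * L * R :=
        mul_le_mul h2 h1 he (by positivity)
      refine h3.trans ?_
      rw [hK]
      have : G * (2 * L * R) ≤ G ^ 2 * (2 * L * R) :=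
        mul_le_mul_of_nonneg_right (by nlinarith) (by positivity)
      linarith
  have tv := (H.smooth hw sk K0 (fun e => sq_nonneg _) (fun e _ => (g2 e).trans GG) k2 k3).1
  have cV : Continuous fun p : ℝ × ℝ => |p.2| * g |p.2| ^ 2 :=
    (continuous_abs.comp continuous_snd).mul ((sg.continuous.comp
      (continuous_abs.comp continuous_snd)).pow 2)
  have bV : ∀ p : ℝ × ℝ, ‖|p.2| * g |p.2| ^ 2‖ ≤ K := fun p => by
    rw [Real.norm_eq_abs, abs_of_nonneg (mul_nonneg (abs_nonneg _) (sq_nonneg _))]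
    exact k3 _ (abs_nonneg _)
  refine ⟨fun p => |p.2| * g |p.2| ^ 2, fun n => Integrable.of_bound cV.aestronglyMeasurable K
    (ae_of_all _ bV), Integrable.of_bound cV.aestronglyMeasurable K (ae_of_all _ bV), tv,
    fun p hp => ?_⟩
  show |w p.2 - |p.2| * g |p.2| ^ 2| ≤ η * (1 + p.2)
  rw [abs_of_nonneg hp]
  exact hg _ hp

/-- **Weights vanishing at zero.** -/
theorem Jets.tv [IsFiniteMeasure ν] (H : Jets κ V C) (hw : Wk κ ν) {w : ℝ → ℝ} (cw : Continuous w)
    (w0 : w 0 = 0) (wi : Tendsto (fun e => w e / e) atTop (𝓝 0)) : TVw κ ν fun p => w p.2 := by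
  have := H.fin
  have nν := H.nnν hw
  have eν := H.eν hw
  have lim : ∀ v : ℝ → ℝ, (∀ e, |v e| ≤ |w e|) → Tendsto (fun e => v e / e) atTop (𝓝 0) := by
    intro v hv
    refine squeeze_zero_norm (a := fun e => |w e / e|) (fun e => ?_) (by
      have := wi.abs; rwa [abs_zero] at this)
    rw [Real.norm_eq_abs, abs_div, abs_div]
    exact div_le_div_of_nonneg_right (hv e) (abs_nonneg e)
  have c1 : Continuous fun e => max (w e) 0 := cw.max continuous_const
  have c2 : Continuous fun e => max (-w e) 0 := cw.neg.max continuous_const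
  have l1 := lim (fun e => max (w e) 0) fun e => by
    rw [abs_of_nonneg (le_max_right _ _)]
    exact max_le (le_abs_self _) (abs_nonneg _)
  have l2 := lim (fun e => max (-w e) 0) fun e => by
    rw [abs_of_nonneg (le_max_right _ _)]
    exact max_le (neg_le_abs _) (abs_nonneg _)
  have t1 := H.tvp hw c1 (by simp [w0]) (fun e => le_max_right _ _) l1
  have t2 := H.tvp hw c2 (by simp [w0]) (fun e => le_max_right _ _) l2
  have t3 := TVw.lin (fun n => w_int c1 l1 (H.nn n) (H.ie n)) (w_int c1 l1 nν eν.1)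
    (fun n => w_int c2 l2 (H.nn n) (H.ie n)) (w_int c2 l2 nν eν.1) t1 t2 (-1)
  have e : (fun p : ℝ × ℝ => max (w p.2) 0 + -1 * max (-w p.2) 0) = fun p => w p.2 := by
    funext p
    rcases le_total (w p.2) 0 with h | h
    · rw [max_eq_right h, max_eq_left (by linarith)]; ring
    · rw [max_eq_left h, max_eq_right (by linarith)]; ring
  rwa [e] at t3

/-- **Absolute continuity of the limit, off the origin.** -/
theorem Jets.ac [IsFiniteMeasure ν] (H : Jets κ V C) (hw : Wk κ ν) {N : Set ℝ}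
    (hN : MeasurableSet N) (hN0 : volume N = 0) : ν {p | p.1 ∈ N ∧ p ≠ (0, 0)} = 0 := by
  have := H.fin
  have ex : ∀ e : ℝ, 0 ≤ e → e * Real.exp (-e) ≤ 1 := fun e he => by
    rw [Real.exp_neg, ← div_eq_mul_inv, div_le_one (Real.exp_pos _)]
    have := Real.add_one_le_exp e
    linarith
  have dex : ∀ e : ℝ, deriv (fun e : ℝ => Real.exp (-e)) e = -Real.exp (-e) := fun e => by
    have h1 : HasDerivAt (fun e : ℝ => Real.exp (-e)) (Real.exp (-e) * (-1)) e :=
      (hasDerivAt_neg e).exp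
    rw [h1.deriv]
    ring
  have z1 := (H.smooth hw (k := fun e => Real.exp (-e)) (Real.contDiff_exp.comp contDiff_neg)
    one_pos (fun e => (Real.exp_pos _).le) (fun e he => by
      rw [Real.exp_le_one_iff]; linarith) (fun e he => by
      rw [dex, neg_mul, abs_neg, abs_of_nonneg (mul_nonneg (Real.exp_pos _).le he), mul_comm]
      exact ex e he) ex).2 N hN hN0
  obtain ⟨D, D0, hD⟩ := H.thr
  have cth : Continuous fun p : ℝ × ℝ => th p.1 := th_sm.continuous.comp continuous_fst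
  have z2 := (jet_tv0 hw cth (fun p => th_nn _) (K := 1) (fun p => by
    rw [abs_of_nonneg (th_nn _)]; exact th_le_one _) D0 (hD.mono fun n hn g a b sg ga gb => by
    rw [wl_int cth.measurable (fun p => th_nn _) (sg.continuous_deriv (by simp)).measurable]
    exact hn g a b sg ga gb)).2 N hN hN0
  refine measure_mono_null (fun p hp => ?_) (measure_union_null z1 z2)
  obtain ⟨p1, p2⟩ := hp
  by_cases h : p.2 = 0
  · right
    refine ⟨p1, ?_⟩
    have h2 : p.1 ≠ 0 := fun h' => p2 (Prod.ext h' h)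
    have := th_pos (abs_pos.2 h2)
    intro h3
    have e : th |p.1| = th p.1 := by unfold th; rw [sq_abs]
    rw [e, h3] at this
    exact lt_irrefl _ this
  · left
    exact ⟨p1, mul_ne_zero (abs_ne_zero.2 h) (Real.exp_pos _).ne'⟩

/-- **No mass at the origin.** -/
theorem Jets.tv1 [IsFiniteMeasure ν] (H : Jets κ V C) (hw : Wk κ ν) (h0 : ν {(0, 0)} = 0)
    {w : ℝ → ℝ} (cw : Continuous w) (wi : Tendsto (fun e => w e / e) atTop (𝓝 0)) :
    TVw κ ν fun p => w p.2 := by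
  have := H.fin
  have nν := H.nnν hw
  have eν := H.eν hw
  obtain ⟨D, D0, hD⟩ := H.thr
  have cth : Continuous fun p : ℝ × ℝ => th p.1 := th_sm.continuous.comp continuous_fst
  have osc : ∀ δ : ℝ, 0 < δ → ∃ ε : ℝ, 0 < ε ∧ ∀ᶠ n in atTop, Osc ((κ n).map Prod.fst) ε δ := by
    intro δ hδ
    obtain ⟨ε, hε⟩ : ∃ ε : ℝ, ε = min 1 ((δ / (5 * (D + 1))) ^ 2) := ⟨_, rfl⟩
    have ε0 : 0 < ε := by rw [hε]; exact lt_min one_pos (by positivity)
    have ε1 : ε ≤ 1 := by rw [hε]; exact min_le_left _ _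
    have ε2 : √ε ≤ δ / (5 * (D + 1)) := by
      rw [Real.sqrt_le_left (by positivity), hε]
      exact min_le_right _ _
    have Db : 5 * D * √ε ≤ δ := by
      have h1 := mul_le_mul_of_nonneg_left ε2 (by positivity : 0 ≤ 5 * D)
      refine h1.trans ?_
      have e : 5 * D * (δ / (5 * (D + 1))) = D / (D + 1) * δ := by field_simp
      rw [e]
      have : D / (D + 1) ≤ 1 := by rw [div_le_one (by positivity)]; linarith
      nlinarith
    refine ⟨ε, ε0, hD.mono fun n hn f sf kf bf => ?_⟩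
    have hR : Rg (wl (κ n) fun p => th p.1) D := fun g a b sg ga gb => by
      rw [wl_int cth.measurable (fun p => th_nn _) (sg.continuous_deriv (by simp)).measurable]
      exact hn g a b sg ga gb
    have h1 := (rg_sm D0 hR sf bf ε0 ε1).trans Db
    have m1 : Measurable fun x => sm f ε x - f x :=
      ((sm_cont sf.continuous ε).sub sf.continuous).measurable
    rw [wl_int cth.measurable (fun p => th_nn _) m1] at h1
    have e2 : ∫ x, (sm f ε x - f x) * th x ∂((κ n).map Prod.fst) =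
        ∫ p, (sm f ε p.1 - f p.1) * th p.1 ∂(κ n) :=
      integral_map (f := fun x => (sm f ε x - f x) * th x) measurable_fst.aemeasurable (m1.mul
        th_sm.continuous.measurable).aestronglyMeasurable
    rw [e2]
    refine le_trans (le_of_eq ?_) h1
    congr 2
    funext p
    ring
  have f1 : ∀ n, IsFiniteMeasure ((κ n).map Prod.fst) := fun n => inferInstance
  have f2 : IsFiniteMeasure (ν.map Prod.fst) := inferInstance
  have hm : ∀ (τ : Measure (ℝ × ℝ)) (g : ℝ → ℝ), Measurable g →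
      ∫ x, g x ∂(τ.map Prod.fst) = ∫ p, 1 * g p.1 ∂τ := fun τ g hg => by
    rw [integral_map measurable_fst.aemeasurable hg.aestronglyMeasurable]
    simp
  have at0 : (ν.map Prod.fst) {0} = 0 := by
    rw [Measure.map_apply measurable_fst (measurableSet_singleton 0)]
    refine measure_mono_null (fun p hp => ?_) (measure_union_null h0
      (H.ac hw (measurableSet_singleton 0) Real.volume_singleton))
    by_cases h : p = (0, 0)
    · left; exact h
    · right; exact ⟨hp, h⟩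
  have t1 : TVw κ ν fun _ => (1 : ℝ) := by
    intro δ hδ
    have h1 := tv_all (μ := fun n => (κ n).map Prod.fst) (ν := ν.map Prod.fst) osc (fun g => by
      have h2 := hw (g.compContinuous ⟨Prod.fst, continuous_fst⟩)
      rw [hm _ _ g.continuous.measurable]
      simp only [hm _ _ g.continuous.measurable, one_mul]
      exact h2) at0 hδ
    refine h1.mono fun n hn g hg g1 => ?_
    have := hn g hg g1
    rwa [hm _ _ hg, hm _ _ hg] at this
  have t2 : Tendsto (fun e => (w e - w 0) / e) atTop (𝓝 0) := by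
    have h3 : Tendsto (fun e : ℝ => w 0 / e) atTop (𝓝 0) := tendsto_const_nhds.div_atTop tendsto_id
    have h4 := wi.sub h3
    rw [sub_zero] at h4
    refine h4.congr fun e => ?_
    rw [sub_div]
  have c2 : Continuous fun e => w e - w 0 := cw.sub continuous_const
  have t3 := H.tv hw c2 (by simp) t2
  have t4 := TVw.lin (fun n => w_int c2 t2 (H.nn n) (H.ie n)) (w_int c2 t2 nν eν.1)
    (fun n => integrable_const (1 : ℝ)) (integrable_const (1 : ℝ)) t3 t1 (w 0)
  have e : (fun p : ℝ × ℝ => w p.2 - w 0 + w 0 * 1) = fun p => w p.2 := by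
    funext p; ring
  rwa [e] at t4

/-- **Compactness.** -/
theorem Jets.cpt (H : Jets κ V C) : ∃ ψ : ℕ → ℕ, StrictMono ψ ∧
    ∃ Q : ProbabilityMeasure (ℝ × ℝ), ∀ F : (ℝ × ℝ) →ᵇ ℝ,
      Tendsto (fun n => ∫ p, F p ∂(κ (ψ n))) atTop (𝓝 (V * ∫ p, F p ∂(Q : Measure (ℝ × ℝ)))) := by
  have V0 := H.v0
  have C0 := H.c0
  have := H.fin
  have ex : ∀ n, ∃ P : ProbabilityMeasure (ℝ × ℝ),
      (P : Measure (ℝ × ℝ)) = (κ n Set.univ)⁻¹ • κ n := by
    intro n
    have h0 : κ n Set.univ ≠ 0 := fun h' => by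
      have := H.mass n
      unfold Measure.real at this
      rw [h', ENNReal.toReal_zero] at this
      linarith
    refine ⟨⟨(κ n Set.univ)⁻¹ • κ n, ⟨?_⟩⟩, rfl⟩
    rw [Measure.smul_apply, smul_eq_mul, ENNReal.inv_mul_cancel h0 (measure_ne_top _ _)]
  choose P hP using ex
  have eP : ∀ n, ∀ f : ℝ × ℝ → ℝ, ∫ x, f x ∂(P n : Measure (ℝ × ℝ)) =
      V⁻¹ * ∫ x, f x ∂(κ n) := by
    intro n f
    rw [hP n, integral_smul_measure, ENNReal.toReal_inv, smul_eq_mul]
    have e : (κ n Set.univ).toReal = V := H.mass n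
    rw [e]
  have cst : Continuous fun p : ℝ × ℝ => p.1 ^ 2 + |p.2| := by fun_prop
  have iκ : ∀ n, Integrable (fun p : ℝ × ℝ => p.1 ^ 2 + |p.2|) (κ n) := fun n =>
    (H.isq n).add (H.ie n).abs
  have iP : ∀ n, Integrable (fun p : ℝ × ℝ => p.1 ^ 2 + |p.2|) (P n : Measure (ℝ × ℝ)) := by
    intro n
    rw [hP n]
    refine (iκ n).smul_measure ?_
    rw [Ne, ENNReal.inv_eq_top]
    intro h'
    have := H.mass n
    unfold Measure.real at this
    rw [h', ENNReal.toReal_zero] at this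
    linarith
  obtain ⟨M, hM⟩ : ∃ M : ℝ, M = V⁻¹ * (2 * C) := ⟨_, rfl⟩
  have M0 : 0 ≤ M := by rw [hM]; positivity
  have bP : ∀ n, ∫ p, (p.1 ^ 2 + |p.2|) ∂(P n : Measure (ℝ × ℝ)) ≤ M := by
    intro n
    rw [eP, hM]
    refine mul_le_mul_of_nonneg_left ?_ (by positivity)
    rw [integral_add (H.isq n) (H.ie n).abs]
    have e : ∫ p : ℝ × ℝ, |p.2| ∂(κ n) = ∫ p, p.2 ∂(κ n) :=
      integral_congr_ae ((H.nn n).mono fun p hp => abs_of_nonneg hp)
    rw [e]
    have := H.en n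
    have := H.sq n
    linarith
  obtain ⟨w, hw⟩ : ∃ w : ℕ → ℝ≥0, ∀ m, (w m : ℝ) = M / ((m : ℝ) + 1) :=
    ⟨fun m => ⟨M / ((m : ℝ) + 1), by positivity⟩, fun m => rfl⟩
  have w0 : Tendsto w atTop (𝓝 0) := by
    rw [← NNReal.tendsto_coe]
    have h1 : Tendsto (fun m : ℕ => M * (1 / ((m : ℝ) + 1))) atTop (𝓝 (M * 0)) :=
      (tendsto_one_div_add_atTop_nhds_zero_nat).const_mul M
    have e : M * 0 = ((0 : ℝ≥0) : ℝ) := by simp
    rw [e] at h1
    refine h1.congr fun m => ?_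
    rw [hw]
    field_simp
  have hc := isCompact_setOfPred_probabilityMeasure_mass_eq_compl_isCompact_le (E := ℝ × ℝ)
    (K := fun m : ℕ => Set.Icc (-((m : ℝ) + 1)) ((m : ℝ) + 1) ×ˢ
      Set.Icc (-((m : ℝ) + 1)) ((m : ℝ) + 1)) w0 (fun m => isCompact_Icc.prod isCompact_Icc)
    (Or.inl inferInstance)
  obtain ⟨Q, -, ψ, hψ, hQ⟩ := hc.tendsto_subseq (x := P) fun n => by
    intro m
    rw [← NNReal.coe_le_coe, hw]
    show ((P n : Measure (ℝ × ℝ)) _).toReal ≤ _
    have h1 := mul_meas_ge_le_integral_of_nonneg (μ := (P n : Measure (ℝ × ℝ)))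
      (f := fun p => p.1 ^ 2 + |p.2|) (ae_of_all _ fun p => by positivity) (iP n) ((m : ℝ) + 1)
    rw [le_div_iff₀ (by positivity), mul_comm]
    refine le_trans ?_ (h1.trans (bP n))
    refine mul_le_mul_of_nonneg_left ?_ (by positivity)
    refine measureReal_mono fun p hp => ?_
    show (m : ℝ) + 1 ≤ p.1 ^ 2 + |p.2|
    by_contra hcon
    push Not at hcon
    refine hp ⟨abs_le.1 ?_, abs_le.1 ?_⟩
    · by_contra h2
      push Not at h2
      have h3 : ((m : ℝ) + 1) * ((m : ℝ) + 1) ≤ |p.1| * |p.1| :=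
        mul_le_mul h2.le h2.le (by positivity) (abs_nonneg _)
      have h4 : |p.1| * |p.1| = p.1 ^ 2 := by rw [← sq_abs p.1]; ring
      have h5 : (m : ℝ) + 1 ≤ ((m : ℝ) + 1) * ((m : ℝ) + 1) := by
        have : (0 : ℝ) ≤ m := Nat.cast_nonneg m
        nlinarith
      have := abs_nonneg p.2
      linarith
    · have := sq_nonneg p.1
      linarith
  refine ⟨ψ, hψ, Q, fun F => ?_⟩
  have h2 := (ProbabilityMeasure.tendsto_iff_forall_integral_tendsto.1 hQ F).const_mul V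
  refine h2.congr fun n => ?_
  show V * ∫ p, F p ∂(P (ψ n) : Measure (ℝ × ℝ)) = _
  rw [eP, ← mul_assoc, mul_inv_cancel₀ V0.ne', one_mul]

end

end Pool.Agent.N252.LL
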