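import Pool.Agent.N252.LL.B
import Pool.Agent.N252.TV.M

/-!
Project LL (helper252): laws of first jets, the abstract part.
-/

set_option autoImplicit false
open MeasureTheory Filter Topology
open scoped ContDiff ENNReal NNReal BoundedContinuousFunction

namespace Pool.Agent.N252.LL

open Pool.Agent.N252.TV

noncomputable section

/-- the law of the first coordinate with the weight `W` -/
def wl (κ : Measure (ℝ × ℝ)) (W : ℝ × ℝ → ℝ) : Measure ℝ :=
  (κ.withDensity fun p => ENNReal.ofReal (W p)).map Prod.fst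

lemma wl_int {κ : Measure (ℝ × ℝ)} {W : ℝ × ℝ → ℝ} (mW : Measurable W) (W0 : ∀ p, 0 ≤ W p)
    {g : ℝ → ℝ} (hg : Measurable g) : ∫ x, g x ∂(wl κ W) = ∫ p, W p * g p.1 ∂κ :=
  den_int mW W0 measurable_fst hg

lemma wl_fin {κ : Measure (ℝ × ℝ)} [IsFiniteMeasure κ] {W : ℝ × ℝ → ℝ} (cW : Continuous W) {K : ℝ}
    (WK : ∀ p, |W p| ≤ K) : IsFiniteMeasure (wl κ W) := by
  have i : Integrable W κ := Integrable.of_bound cW.aestronglyMeasurable K (ae_of_all _ WK)
  have := isFiniteMeasure_withDensity_ofReal i.2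
  unfold wl
  infer_instance

/-- uniform convergence over measurable functions of the first coordinate -/
def TVw (κ : ℕ → Measure (ℝ × ℝ)) (ν : Measure (ℝ × ℝ)) (W : ℝ × ℝ → ℝ) : Prop :=
  ∀ δ : ℝ, 0 < δ → ∀ᶠ n in atTop, ∀ g : ℝ → ℝ, Measurable g → (∀ x, |g x| ≤ 1) →
    |∫ p, W p * g p.1 ∂(κ n) - ∫ p, W p * g p.1 ∂ν| ≤ δ

variable {κ : ℕ → Measure (ℝ × ℝ)} {ν : Measure (ℝ × ℝ)}

lemma ig_bdd {τ : Measure (ℝ × ℝ)} {W : ℝ × ℝ → ℝ} (hW : Integrable W τ) {g : ℝ → ℝ}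
    (hg : Measurable g) (g1 : ∀ x, |g x| ≤ 1) : Integrable (fun p => W p * g p.1) τ :=
  hW.mul_bdd (c := 1) (hg.comp measurable_fst).aestronglyMeasurable (ae_of_all _ fun p => g1 _)

/-- regular weighted laws converge in total variation -/
theorem jet_tv0 [∀ n, IsFiniteMeasure (κ n)] [IsFiniteMeasure ν]
    (hw : ∀ F : (ℝ × ℝ) →ᵇ ℝ, Tendsto (fun n => ∫ p, F p ∂(κ n)) atTop (𝓝 (∫ p, F p ∂ν)))
    {W : ℝ × ℝ → ℝ} (cW : Continuous W) (W0 : ∀ p, 0 ≤ W p) {K : ℝ} (WK : ∀ p, |W p| ≤ K)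
    {D : ℝ} (D0 : 0 ≤ D) (hR : ∀ᶠ n in atTop, Rg (wl (κ n) W) D) :
    TVw κ ν W ∧ ∀ N : Set ℝ, MeasurableSet N → volume N = 0 → ν {p | p.1 ∈ N ∧ W p ≠ 0} = 0 := by
  have f1 : ∀ n, IsFiniteMeasure (wl (κ n) W) := fun n => wl_fin cW WK
  have f2 : IsFiniteMeasure (wl ν W) := wl_fin cW WK
  have mW := cW.measurable
  have K0 : 0 ≤ K := (abs_nonneg _).trans (WK (0, 0))
  have tv : TVw κ ν W := by
    intro δ hδ
    have h1 := tv_full (μ := fun n => wl (κ n) W) (ν := wl ν W) D0 hR (fun g => by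
      have cF : Continuous fun p : ℝ × ℝ => W p * g p.1 := cW.mul (g.continuous.comp continuous_fst)
      have bF : ∀ p : ℝ × ℝ, ‖W p * g p.1‖ ≤ K * ‖g‖ := fun p => by
        rw [norm_mul]
        exact mul_le_mul (WK p) (g.norm_coe_le_norm _) (norm_nonneg _) K0
      have h2 := hw (BoundedContinuousFunction.ofNormedAddCommGroup _ cF (K * ‖g‖) bF)
      rw [wl_int mW W0 g.continuous.measurable]
      refine h2.congr fun n => ?_
      rw [wl_int mW W0 g.continuous.measurable]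
      rfl) hδ
    refine h1.mono fun n hn g hg g1 => ?_
    have := hn g hg g1
    rwa [wl_int mW W0 hg, wl_int mW W0 hg] at this
  refine ⟨tv, fun N hN hN0 => ?_⟩
  have mI : Measurable (N.indicator fun _ => (1 : ℝ)) := measurable_const.indicator hN
  have bI : ∀ x, |N.indicator (fun _ => (1 : ℝ)) x| ≤ 1 := fun x => by
    by_cases hx : x ∈ N
    · rw [Set.indicator_of_mem hx, abs_one]
    · rw [Set.indicator_of_notMem hx, abs_zero]; exact zero_le_one
  have nI : ∀ x, 0 ≤ N.indicator (fun _ => (1 : ℝ)) x := fun x =>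
    Set.indicator_nonneg (fun _ _ => zero_le_one) x
  have z : ∀ᶠ n in atTop, ∫ p, W p * N.indicator (fun _ => (1 : ℝ)) p.1 ∂(κ n) = 0 := by
    filter_upwards [hR] with n hn
    have h2 := borel_of_reg (wl (κ n) W) D0 hn hN (by rw [hN0]; exact ENNReal.zero_ne_top)
    have h3 : volume.real N = 0 := by unfold Measure.real; rw [hN0]; rfl
    rw [h3, Real.sqrt_zero, add_zero, mul_zero] at h2
    have h4 : (wl (κ n) W).real N = 0 := le_antisymm h2 measureReal_nonneg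
    rw [← wl_int mW W0 mI, integral_indicator hN, setIntegral_const, smul_eq_mul, mul_one]
    exact h4
  have iW : Integrable W ν := Integrable.of_bound cW.aestronglyMeasurable K (ae_of_all _ WK)
  have z2 : ∫ p, W p * N.indicator (fun _ => (1 : ℝ)) p.1 ∂ν = 0 := by
    refine le_antisymm (le_of_forall_pos_le_add fun δ hδ => ?_)
      (integral_nonneg fun p => mul_nonneg (W0 p) (nI _))
    obtain ⟨n, hn, hz⟩ := ((tv δ hδ).and z).exists
    have h4 := hn _ mI bI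
    rw [hz] at h4
    have := (abs_le.1 h4).1
    linarith
  have z3 := (integral_eq_zero_iff_of_nonneg (fun p => mul_nonneg (W0 p) (nI _))
    (ig_bdd iW mI bI)).1 z2
  refine measure_mono_null (fun p hp => ?_) z3
  obtain ⟨p1, p2⟩ := hp
  show ¬ (W p * N.indicator (fun _ => (1 : ℝ)) p.1 = 0)
  rw [Set.indicator_of_mem p1, mul_one]
  exact p2

/-- approximation of the weight -/
lemma TVw.approx {C : ℝ} (C0 : 0 ≤ C) (n1 : ∀ n, ∀ᵐ p ∂(κ n), 0 ≤ p.2)
    (n2 : ∀ᵐ p ∂ν, 0 ≤ p.2) (i1 : ∀ n, Integrable (fun p : ℝ × ℝ => 1 + p.2) (κ n))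
    (i2 : Integrable (fun p : ℝ × ℝ => 1 + p.2) ν) (b1 : ∀ n, ∫ p, (1 + p.2) ∂(κ n) ≤ C)
    (b2 : ∫ p, (1 + p.2) ∂ν ≤ C) {W : ℝ × ℝ → ℝ} (iW : ∀ n, Integrable W (κ n))
    (jW : Integrable W ν)
    (h : ∀ η : ℝ, 0 < η → ∃ V : ℝ × ℝ → ℝ, (∀ n, Integrable V (κ n)) ∧ Integrable V ν ∧
      TVw κ ν V ∧ ∀ p : ℝ × ℝ, 0 ≤ p.2 → |W p - V p| ≤ η * (1 + p.2)) : TVw κ ν W := by
  intro δ hδ
  obtain ⟨η, hη⟩ : ∃ η, η = δ / (4 * (C + 1)) := ⟨_, rfl⟩
  have η0 : 0 < η := by rw [hη]; positivity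
  have ηC : η * C ≤ δ / 4 := by
    rw [hη, div_mul_eq_mul_div, div_le_div_iff₀ (by positivity) (by positivity)]
    nlinarith
  obtain ⟨V, iV, jV, tv, hV⟩ := h η η0
  filter_upwards [tv (δ / 4) (by positivity)] with n hn g hg g1
  have cl : ∀ τ : Measure (ℝ × ℝ), (∀ᵐ p ∂τ, 0 ≤ p.2) → Integrable (fun p : ℝ × ℝ => 1 + p.2) τ →
      ∫ p, (1 + p.2) ∂τ ≤ C → Integrable W τ → Integrable V τ →
      |∫ p, W p * g p.1 ∂τ - ∫ p, V p * g p.1 ∂τ| ≤ δ / 4 := by
    intro τ nn ii bb i3 i4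
    rw [← integral_sub (ig_bdd i3 hg g1) (ig_bdd i4 hg g1)]
    refine (abs_integral_le_integral_abs).trans ?_
    have h1 : ∫ p, |W p * g p.1 - V p * g p.1| ∂τ ≤ ∫ p, η * (1 + p.2) ∂τ := by
      refine integral_mono_ae ((ig_bdd i3 hg g1).sub (ig_bdd i4 hg g1)).abs (ii.const_mul η) ?_
      filter_upwards [nn] with p hp
      show |W p * g p.1 - V p * g p.1| ≤ η * (1 + p.2)
      rw [← sub_mul, abs_mul]
      have h2 := mul_le_mul (hV p hp) (g1 p.1) (abs_nonneg _) (by positivity)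
      linarith
    rw [integral_const_mul] at h1
    have h2 := mul_le_mul_of_nonneg_left bb η0.le
    linarith
  have c1 := cl (κ n) (n1 n) (i1 n) (b1 n) (iW n) (iV n)
  have c2 := cl ν n2 i2 b2 jW jV
  have c3 := hn g hg g1
  have e : ∫ p, W p * g p.1 ∂(κ n) - ∫ p, W p * g p.1 ∂ν =
      (∫ p, W p * g p.1 ∂(κ n) - ∫ p, V p * g p.1 ∂(κ n)) -
      (∫ p, W p * g p.1 ∂ν - ∫ p, V p * g p.1 ∂ν) +
      (∫ p, V p * g p.1 ∂(κ n) - ∫ p, V p * g p.1 ∂ν) := by ring
  rw [e]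
  refine (abs_add_le _ _).trans ?_
  have := abs_sub (∫ p, W p * g p.1 ∂(κ n) - ∫ p, V p * g p.1 ∂(κ n))
    (∫ p, W p * g p.1 ∂ν - ∫ p, V p * g p.1 ∂ν)
  linarith

lemma TVw.lin {W V : ℝ × ℝ → ℝ} (iW : ∀ n, Integrable W (κ n)) (jW : Integrable W ν)
    (iV : ∀ n, Integrable V (κ n)) (jV : Integrable V ν) (h1 : TVw κ ν W) (h2 : TVw κ ν V)
    (c : ℝ) : TVw κ ν fun p => W p + c * V p := by
  intro δ hδ
  obtain ⟨d, hd⟩ : ∃ d, d = δ / (2 * (|c| + 1)) := ⟨_, rfl⟩
  have c0 := abs_nonneg c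
  have d0 : 0 < d := by rw [hd]; positivity
  have cd : |c| * d ≤ δ / 2 := by
    rw [hd, mul_div_assoc', div_le_div_iff₀ (by positivity) (by positivity)]
    nlinarith
  filter_upwards [h1 (δ / 2) (by positivity), h2 d d0] with n a1 a2 g hg g1
  have sp : ∀ τ : Measure (ℝ × ℝ), Integrable W τ → Integrable V τ →
      ∫ p, (W p + c * V p) * g p.1 ∂τ = ∫ p, W p * g p.1 ∂τ + c * ∫ p, V p * g p.1 ∂τ := by
    intro τ i1 i2
    rw [← integral_const_mul, ← integral_add (ig_bdd i1 hg g1) ((ig_bdd i2 hg g1).const_mul c)]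
    congr 1
    funext p
    ring
  rw [sp _ (iW n) (iV n), sp _ jW jV]
  have e : ∫ p, W p * g p.1 ∂(κ n) + c * ∫ p, V p * g p.1 ∂(κ n) -
      (∫ p, W p * g p.1 ∂ν + c * ∫ p, V p * g p.1 ∂ν) =
      (∫ p, W p * g p.1 ∂(κ n) - ∫ p, W p * g p.1 ∂ν) +
      c * (∫ p, V p * g p.1 ∂(κ n) - ∫ p, V p * g p.1 ∂ν) := by ring
  rw [e]
  refine (abs_add_le _ _).trans ?_
  rw [abs_mul]
  have b1 := a1 g hg g1
  have b2 := mul_le_mul_of_nonneg_left (a2 g hg g1) c0
  linarith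

/-- approximation of a weight by smooth ones -/
lemma approx_w {w : ℝ → ℝ} (cw : Continuous w) (w0 : w 0 = 0) (wn : ∀ e, 0 ≤ w e)
    (wi : Tendsto (fun e => w e / e) atTop (𝓝 0)) {η : ℝ} (hη : 0 < η) :
    ∃ g : ℝ → ℝ, ContDiff ℝ ∞ g ∧ HasCompactSupport g ∧
      ∀ e, 0 ≤ e → |w e - e * g e ^ 2| ≤ η * (1 + e) := by
  -- the constants
  obtain ⟨r, r0, hr⟩ : ∃ r : ℝ, 0 < r ∧ ∀ e, 0 ≤ e → e ≤ r → w e ≤ η / 2 := by
    have h1 : ∀ᶠ e in 𝓝 (0 : ℝ), w e < η / 2 :=
      cw.continuousAt.eventually_lt_const (by rw [w0]; positivity)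
    obtain ⟨r, r0, h2⟩ := Metric.eventually_nhds_iff.1 h1
    refine ⟨r / 2, by positivity, fun e e0 her => (h2 (y := e) ?_).le⟩
    rw [Real.dist_eq, sub_zero, abs_of_nonneg e0]
    linarith
  obtain ⟨R, R1, hR⟩ : ∃ R : ℝ, 1 ≤ R ∧ ∀ e, R ≤ e → w e ≤ η / 2 * e := by
    have h1 : ∀ᶠ e in atTop, w e / e < η / 2 := wi.eventually_lt_const (by positivity)
    obtain ⟨R, h2⟩ := eventually_atTop.1 h1
    refine ⟨max R 1, le_max_right _ _, fun e he => ?_⟩
    have e1 : 1 ≤ e := (le_max_right _ _).trans he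
    have := h2 e ((le_max_left _ _).trans he)
    rw [div_lt_iff₀ (by linarith)] at this
    exact this.le
  obtain ⟨S', hS'⟩ := (isCompact_Icc (a := (0 : ℝ)) (b := 2 * R)).exists_bound_of_continuousOn
    cw.continuousOn
  obtain ⟨S, hS⟩ : ∃ S, S = |S'| + 1 := ⟨_, rfl⟩
  have S1 : 1 ≤ S := by rw [hS]; linarith [abs_nonneg S']
  have S0 : 0 < S := by linarith
  have hS2 : ∀ e, 0 ≤ e → e ≤ 2 * R → w e ≤ S := fun e e0 e2 => by
    have := hS' e ⟨e0, e2⟩
    rw [Real.norm_eq_abs] at this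
    have h1 := le_abs_self (w e)
    have h2 := le_abs_self S'
    rw [hS]; linarith
  obtain ⟨δ, hδ⟩ : ∃ δ, δ = η * r / (2 * S) := ⟨_, rfl⟩
  have δ0 : 0 < δ := by rw [hδ]; positivity
  have Sδ : S * δ = η * r / 2 := by rw [hδ]; field_simp
  -- the continuous approximation
  obtain ⟨f, hf⟩ : ∃ f : ℝ → ℝ, f = fun e => √(w |e| / (|e| + δ) * max 0 (min 1 (2 - |e| / R))) :=
    ⟨_, rfl⟩
  have dp : ∀ e : ℝ, 0 < |e| + δ := fun e => by positivity
  have R0 : 0 < R := by linarith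
  have cf : Continuous f := by
    rw [hf]
    refine Real.continuous_sqrt.comp (((cw.comp continuous_abs).div (continuous_abs.add
      continuous_const) fun e => (dp e).ne').mul ?_)
    fun_prop
  have f2 : ∀ e, 0 ≤ e → f e ^ 2 = w e / (e + δ) * max 0 (min 1 (2 - e / R)) := by
    intro e he
    rw [hf]
    simp only
    rw [abs_of_nonneg he, Real.sq_sqrt]
    refine mul_nonneg (div_nonneg (wn e) (by positivity)) (le_max_left _ _)
  have kf : HasCompactSupport f := by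
    refine HasCompactSupport.intro (isCompact_Icc (a := -(2 * R)) (b := 2 * R)) fun e he => ?_
    have h1 : 2 * R < |e| := by
      by_contra h
      push Not at h
      exact he (abs_le.1 h)
    rw [hf]
    simp only
    have : 2 ≤ |e| / R := by rw [le_div_iff₀ R0]; linarith
    rw [min_eq_right (by linarith), max_eq_left (by linarith), mul_zero, Real.sqrt_zero]
  obtain ⟨F', hF'⟩ := kf.exists_bound_of_continuous cf
  obtain ⟨F, hF⟩ : ∃ F, F = |F'| + 1 := ⟨_, rfl⟩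
  have F1 : 1 ≤ F := by rw [hF]; linarith [abs_nonneg F']
  have bF : ∀ e, |f e| ≤ F := fun e => by
    have := hF' e
    rw [Real.norm_eq_abs] at this
    have h2 := le_abs_self F'
    rw [hF]; linarith
  obtain ⟨p, hp⟩ : ∃ p, p = min 1 (η / (6 * F)) := ⟨_, rfl⟩
  have p0 : 0 < p := by rw [hp]; exact lt_min one_pos (by positivity)
  have p1 : p ≤ 1 := by rw [hp]; exact min_le_left _ _
  have pF : p * (3 * F) ≤ η / 2 := by
    have : p ≤ η / (6 * F) := by rw [hp]; exact min_le_right _ _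
    rw [le_div_iff₀ (by positivity)] at this
    linarith
  obtain ⟨g, sg, ag, ug⟩ := cf.exists_contDiff_approx ⊤ (ε := fun _ => p) continuous_const
    fun _ => p0
  refine ⟨g, sg, kf.mono ug, fun e he => ?_⟩
  have h1 : |e * f e ^ 2 - e * g e ^ 2| ≤ η / 2 * e := by
    rw [← mul_sub, abs_mul, abs_of_nonneg he, mul_comm]
    refine mul_le_mul_of_nonneg_right ?_ he
    have a1 := ag e
    rw [Real.dist_eq, abs_sub_comm] at a1
    have a2 : |g e| ≤ F + 1 := by
      have h3 := abs_sub_abs_le_abs_sub (g e) (f e)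
      rw [abs_sub_comm] at h3
      have := bF e
      linarith
    have a3 : f e ^ 2 - g e ^ 2 = (f e - g e) * (f e + g e) := by ring
    rw [a3, abs_mul]
    have a4 : |f e + g e| ≤ 3 * F := by
      refine (abs_add_le _ _).trans ?_
      have := bF e
      linarith
    exact (mul_le_mul a1.le a4 (abs_nonneg _) p0.le).trans pF
  have h2 : |w e - e * f e ^ 2| ≤ η / 2 * (1 + e) := by
    rw [f2 e he]
    obtain ⟨c, hc⟩ : ∃ c, c = max 0 (min 1 (2 - e / R)) := ⟨_, rfl⟩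
    have c0 : 0 ≤ c := by rw [hc]; exact le_max_left _ _
    have c1 : c ≤ 1 := by rw [hc]; exact max_le zero_le_one (min_le_left _ _)
    rw [← hc]
    have ep : 0 < e + δ := by positivity
    have id : w e - e * (w e / (e + δ) * c) = w e * ((e * (1 - c) + δ) / (e + δ)) := by
      field_simp
      ring
    have q0 : 0 ≤ (e * (1 - c) + δ) / (e + δ) :=
      div_nonneg (by nlinarith) ep.le
    have q1 : (e * (1 - c) + δ) / (e + δ) ≤ 1 := by
      rw [div_le_one ep]; nlinarith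
    rw [id, abs_of_nonneg (mul_nonneg (wn e) q0)]
    have q2 : w e * ((e * (1 - c) + δ) / (e + δ)) ≤ w e := by
      have := mul_le_mul_of_nonneg_left q1 (wn e)
      linarith
    rcases le_total R e with h | h
    · have := hR e h
      nlinarith
    · rcases le_total e r with h3 | h3
      · have := hr e he h3
        nlinarith
      · have cc : c = 1 := by
          rw [hc]
          have : e / R ≤ 1 := by rw [div_le_one R0]; exact h
          rw [min_eq_left (by linarith), max_eq_right zero_le_one]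
        rw [cc, sub_self, mul_zero, zero_add]
        have a1 : w e * (δ / (e + δ)) ≤ S * (δ / r) := by
          refine mul_le_mul (hS2 e he (by linarith)) ?_ (by positivity) S0.le
          exact div_le_div_of_nonneg_left δ0.le r0 (by linarith)
        have a2 : S * (δ / r) = η / 2 := by
          rw [← mul_div_assoc, Sδ]; field_simp
        nlinarith
  have e3 : w e - e * g e ^ 2 = (w e - e * f e ^ 2) + (e * f e ^ 2 - e * g e ^ 2) := by ring
  rw [e3]
  refine (abs_add_le _ _).trans ?_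
  linarith

end

end Pool.Agent.N252.LL
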