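import Pool.Agent.N252.LL.Q
import Pool.Agent.N252.LL.J
import Pool.Agent.N252.TV.P

/-!
Project LL (helper252): laws of first jets on a surface.
-/

set_option autoImplicit false
open MeasureTheory Filter Topology Complex
open scoped ContDiff ENNReal NNReal BoundedContinuousFunction

namespace Pool.Agent.N252.LL

open Pool.Agent.W745.RW Pool.Agent.TH294.RS Pool.Agent.TH421.AC Pool.Agent.N252.TV

noncomputable section

variable {X : Type*} [TopologicalSpace X] [MeasurableSpace X] [BorelSpace X] {vol : Measure X}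
  {A : ℕ → IsoChart X vol} {s : Finset ℕ} {φ : ℕ → ℂ → ℝ} {Φ : X → ℝ}

omit [BorelSpace X] in
/-- the joint law in a chart -/
lemma te_jet (C : IsoChart X vol) {φ : ℂ → ℝ} (hφ : TF C.c.target φ) {lam : ℝ} (hl : 0 < lam)
    {u E : X → ℝ} (su : ContDiffOn ℝ ∞ (u ∘ C.c.symm) C.c.target)
    (hE : ∀ z ∈ C.c.target, E (C.c.symm z) = TV.PP (u ∘ C.c.symm) z / (lam * C.ρ z))
    {g k : ℝ → ℝ} (hg : Continuous g) (hk : Continuous k) :
    Integrable (fun z => φ z * ((E (C.c.symm z) * k (E (C.c.symm z))) * g (u (C.c.symm z)))) C.m ∧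
      ∫ z, φ z * ((E (C.c.symm z) * k (E (C.c.symm z))) * g (u (C.c.symm z))) ∂C.m =
        ∫ z, φ z * (g ((u ∘ C.c.symm) z) * ((√lam)⁻¹ ^ 2 * TV.PP (u ∘ C.c.symm) z *
          k (en C.ρ (u ∘ C.c.symm) (√lam)⁻¹ z))) := by
  have hl2 : ((√lam)⁻¹) ^ 2 = lam⁻¹ := by rw [inv_pow, Real.sq_sqrt hl.le]
  have cP : ContinuousOn (fun z => TV.PP (u ∘ C.c.symm) z / (lam * C.ρ z)) C.c.target := by
    have h1 : ContinuousOn (dX (u ∘ C.c.symm)) C.c.target :=
      (Pool.Agent.TH421.AC.rsd C.c.open_target su 1).continuousOn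
    have h2 : ContinuousOn (dY (u ∘ C.c.symm)) C.c.target :=
      (Pool.Agent.TH421.AC.rsd C.c.open_target su I).continuousOn
    exact ((h1.pow 2).add (h2.pow 2)).div (continuousOn_const.mul C.smooth.continuousOn)
      fun z hz => (mul_pos hl (C.pos z hz)).ne'
  have ae : ∀ᵐ z ∂C.m, z ∈ C.c.target := by
    have h1 : ∀ᵐ z ∂(volume.restrict C.c.target), z ∈ C.c.target :=
      ae_restrict_mem C.c.open_target.measurableSet
    exact (withDensity_absolutelyContinuous _ _).ae_le h1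
  refine ⟨?_, ?_⟩
  · have h1 := te_cont C hφ (G := fun z => (TV.PP (u ∘ C.c.symm) z / (lam * C.ρ z) *
      k (TV.PP (u ∘ C.c.symm) z / (lam * C.ρ z))) * g ((u ∘ C.c.symm) z))
      ((cP.mul (hk.comp_continuousOn cP)).mul (hg.comp_continuousOn su.continuousOn))
    refine h1.congr (ae.mono fun z hz => ?_)
    show φ z * ((TV.PP (u ∘ C.c.symm) z / (lam * C.ρ z) *
      k (TV.PP (u ∘ C.c.symm) z / (lam * C.ρ z))) * g (u (C.c.symm z))) = _
    rw [← hE z hz]
  · rw [C.intm, ← integral_indicator C.c.open_target.measurableSet]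
    congr 1
    funext z
    by_cases hz : z ∈ C.c.target
    · have e : en C.ρ (u ∘ C.c.symm) (√lam)⁻¹ z = TV.PP (u ∘ C.c.symm) z / (lam * C.ρ z) := by
        unfold en
        rw [hl2]
        have := (C.pos z hz).ne'
        field_simp
      rw [Set.indicator_of_mem hz, hE z hz, e, hl2]
      have := (C.pos z hz).ne'
      show _ = φ z * (g (u (C.c.symm z)) * (lam⁻¹ * TV.PP (u ∘ C.c.symm) z *
        k (TV.PP (u ∘ C.c.symm) z / (lam * C.ρ z))))
      field_simp
    · rw [Set.indicator_of_notMem hz, image_eq_zero_of_notMem_tsupport fun h => hz (hφ.2.2 h)]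
      ring

/-- the law of the first jet -/
def jet (vol : Measure X) (Φ u E : X → ℝ) : Measure (ℝ × ℝ) :=
  (vol.withDensity fun x => ENNReal.ofReal (Φ x)).map fun x => (u x, E x)

omit [TopologicalSpace X] [BorelSpace X] in
lemma jet_int (mΦ : Measurable Φ) (nΦ : ∀ x, 0 ≤ Φ x) {u E : X → ℝ} (hu : Measurable u)
    (hE : Measurable E) {F : ℝ × ℝ → ℝ} (hF : Measurable F) :
    ∫ p, F p ∂(jet vol Φ u E) = ∫ x, Φ x * F (u x, E x) ∂vol := by
  rw [jet, integral_map (hu.prodMk hE).aemeasurable hF.aestronglyMeasurable,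
    integral_withDensity_eq_integral_toReal_smul₀ mΦ.ennreal_ofReal.aemeasurable
      (ae_of_all _ fun z => ENNReal.ofReal_lt_top)]
  congr 1
  funext x
  rw [ENNReal.toReal_ofReal (nΦ x), smul_eq_mul]

omit [TopologicalSpace X] [BorelSpace X] in
lemma jet_itg (mΦ : Measurable Φ) (nΦ : ∀ x, 0 ≤ Φ x) {u E : X → ℝ} (hu : Measurable u)
    (hE : Measurable E) {F : ℝ × ℝ → ℝ} (hF : Measurable F)
    (hi : Integrable (fun x => Φ x * F (u x, E x)) vol) : Integrable F (jet vol Φ u E) := by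
  rw [jet, integrable_map_measure hF.aestronglyMeasurable (hu.prodMk hE).aemeasurable,
    integrable_withDensity_iff_integrable_smul₀' mΦ.ennreal_ofReal.aemeasurable
      (ae_of_all _ fun z => ENNReal.ofReal_lt_top)]
  refine hi.congr (ae_of_all _ fun x => ?_)
  show Φ x * F (u x, E x) = (ENNReal.ofReal (Φ x)).toReal • F (u x, E x)
  rw [ENNReal.toReal_ofReal (nΦ x), smul_eq_mul]

omit [BorelSpace X] in
lemma IsTe.nnE' (T : IsTe A s φ Φ) {lam : ℝ} (hl : 0 < lam) {u E : X → ℝ}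
    (hE : IsEn A lam u E) {x : X} (hx : Φ x ≠ 0) : 0 ≤ E x := by
  have h1 := T.nnE hl hE x
  have h2 := T.nnΦ x
  have h3 : 0 < Φ x := lt_of_le_of_ne h2 (Ne.symm hx)
  exact nonneg_of_mul_nonneg_right h1 h3

/-- **The laws of the first jets**, after a shift. -/
theorem mk_jets [IsFiniteMeasure vol] (T : IsTe A s φ Φ) (V0 : 0 < ∫ x, Φ x ∂vol) {lam : ℕ → ℝ}
    (hlam : Tendsto lam atTop atTop) {u E : ℕ → X → ℝ} (hu : ∀ n, IsEigen A (lam n) (u n))
    (hE : ∀ n, IsEn A (lam n) (u n) (E n)) {M : ℝ}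
    (hM : ∀ n, MemLp (u n) 2 vol ∧ ∫ x, u n x ^ 2 ∂vol ≤ M) :
    ∃ (N : ℕ) (C : ℝ), (∀ n, N ≤ n → 0 < lam n ∧ Integrable (fun x => Φ x * E n x) vol) ∧
      Jets (fun n => jet vol Φ (u (n + N)) (E (n + N))) (∫ x, Φ x ∂vol) C := by
  obtain ⟨C, C0, hC⟩ := sum_id T hlam hu hE hM
  obtain ⟨K, K0, hK⟩ := T.bd
  have M0 : 0 ≤ M := (integral_nonneg fun x => sq_nonneg _).trans (hM 0).2
  obtain ⟨N, hN⟩ := eventually_atTop.1 (hC.and (hlam.eventually_ge_atTop 1))
  have lN : ∀ n, 1 ≤ lam (n + N) := fun n => (hN _ (Nat.le_add_left _ _)).2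
  have l0 : ∀ n, 0 < lam (n + N) := fun n => lt_of_lt_of_le one_pos (lN n)
  have iΦ : Integrable Φ vol := by
    have := (te_bdd T (F := fun _ => (1 : ℝ)) measurable_const (K := 1) fun x => by simp).1
    simpa using this
  have iE : ∀ n, Integrable (fun x => Φ x * E (n + N) x) vol := fun n =>
    (hN _ (Nat.le_add_left _ _)).1.1
  have jI : ∀ n {F : ℝ × ℝ → ℝ}, Measurable F → ∫ p, F p ∂(jet vol Φ (u n) (E n)) =
      ∫ x, Φ x * F (u n x, E n x) ∂vol := fun n F hF =>
    jet_int T.meas T.nnΦ (hu n).meas (hE n).meas hF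
  have msq : Measurable (fun x : ℝ => x ^ 2) := measurable_id.pow_const 2
  have isq : ∀ n, Integrable (fun x => Φ x * u n x ^ 2) vol := by
    intro n
    refine (((hM n).1.integrable_sq).const_mul K).mono'
      (T.meas.mul (msq.comp (hu n).meas)).aestronglyMeasurable (ae_of_all _ fun x => ?_)
    rw [Real.norm_eq_abs, abs_mul, abs_of_nonneg (T.nnΦ x), abs_of_nonneg (sq_nonneg _)]
    exact mul_le_mul_of_nonneg_right (hK x) (sq_nonneg _)
  have bsq : ∀ n, ∫ x, Φ x * u n x ^ 2 ∂vol ≤ K * M := by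
    intro n
    have h1 : ∫ x, Φ x * u n x ^ 2 ∂vol ≤ ∫ x, K * u n x ^ 2 ∂vol :=
      integral_mono (isq _) ((hM _).1.integrable_sq.const_mul K) fun x =>
        mul_le_mul_of_nonneg_right (hK x) (sq_nonneg _)
    rw [integral_const_mul] at h1
    exact h1.trans (mul_le_mul_of_nonneg_left (hM _).2 K0)
  refine ⟨N, K * M + C, fun n hn => ?_, ?_⟩
  · obtain ⟨m, rfl⟩ := Nat.exists_eq_add_of_le hn
    rw [add_comm]
    exact ⟨l0 m, iE m⟩
  refine ⟨fun n => ?_, V0, by positivity, fun n => ?_, fun n => ?_, fun n => ?_, fun n => ?_,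
    fun n => ?_, fun n => ?_, ?_, ?_⟩
  · have := isFiniteMeasure_withDensity_ofReal iΦ.2
    unfold jet
    infer_instance
  · have e : ∀ (τ : Measure (ℝ × ℝ)), τ.real Set.univ = ∫ _, (1 : ℝ) ∂τ := fun τ => by simp
    rw [e, jI _ measurable_const]
    simp
  · have h1 : MeasurableSet {p : ℝ × ℝ | 0 ≤ p.2} := measurableSet_le measurable_const
      measurable_snd
    show ∀ᵐ p ∂((vol.withDensity fun x => ENNReal.ofReal (Φ x)).map fun x =>
      (u (n + N) x, E (n + N) x)), 0 ≤ p.2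
    rw [ae_map_iff ((hu (n + N)).meas.prodMk (hE (n + N)).meas).aemeasurable h1,
      ae_withDensity_iff T.meas.ennreal_ofReal]
    refine ae_of_all _ fun x hx => ?_
    refine IsTe.nnE' T (l0 n) (hE (n + N)) fun h => hx ?_
    rw [h, ENNReal.ofReal_zero]
  · exact jet_itg T.meas T.nnΦ (hu _).meas (hE _).meas measurable_snd (iE n)
  · rw [jI _ measurable_snd]
    have h1 := (hN _ (Nat.le_add_left N n)).1.2 (fun x => x) 1 1 contDiff_id zero_le_one
      (fun x => by linarith [abs_nonneg x]) (fun x => by simp)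
    rw [one_mul] at h1
    have e1 : ∫ x, Φ x * (E (n + N) x * deriv (fun x => x) (u (n + N) x)) ∂vol =
        ∫ x, Φ x * E (n + N) x ∂vol := by
      congr 1
      funext x
      simp
    have e2 : ∫ x, Φ x * (u (n + N) x * u (n + N) x) ∂vol =
        ∫ x, Φ x * u (n + N) x ^ 2 ∂vol := by
      congr 1
      funext x
      ring
    rw [e1, e2] at h1
    have h2 := (abs_le.1 h1).2
    have h3 := bsq (n + N)
    have h4 : C * (√(lam (n + N)))⁻¹ ≤ C * 1 :=
      mul_le_mul_of_nonneg_left (inv_le_one_of_one_le₀ (Real.one_le_sqrt.2 (lN n))) C0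
    show ∫ x, Φ x * E (n + N) x ∂vol ≤ K * M + C
    linarith
  · exact jet_itg T.meas T.nnΦ (hu _).meas (hE _).meas (msq.comp measurable_fst) (isq _)
  · rw [jI _ (F := fun p : ℝ × ℝ => p.1 ^ 2) (msq.comp measurable_fst)]
    have h3 := bsq (n + N)
    show ∫ x, Φ x * u (n + N) x ^ 2 ∂vol ≤ K * M + C
    linarith
  · -- regularity for the energy weights
    have h1 : ∀ i ∈ s, ∃ D : ℝ, 0 ≤ D ∧ ∀ᶠ n in atTop, ∀ k : ℝ → ℝ, ContDiff ℝ ∞ k →
        (∀ e, 0 ≤ e → |k e| ≤ 1) → (∀ e, 0 ≤ e → |deriv k e * e| ≤ 1) → ∀ (g : ℝ → ℝ) (a : ℝ),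
        ContDiff ℝ ∞ g → (∀ x, |g x| ≤ a) →
        |∫ z, φ i z * (deriv g ((u n ∘ (A i).c.symm) z) * ((√(lam n))⁻¹ ^ 2 *
          TV.PP (u n ∘ (A i).c.symm) z * k (en (A i).ρ (u n ∘ (A i).c.symm) (√(lam n))⁻¹ z)))| ≤
          D * a := by
      intro i hi
      have tf := T.tf i hi
      obtain ⟨C1, C10, key⟩ := jreg (A i).c.open_target (A i).smooth (A i).pos tf
      obtain ⟨C3, C30, hC3⟩ := seq_nsol (A i).c.open_target (A i).smooth (A i).pos hlam
        (u := fun n => u n ∘ (A i).c.symm) (fun n => (hu n).smooth i) (fun n => (hu n).eq i)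
        (loc_l2 (A i) (fun n => (hu n).smooth i) hM) (S := tsupport (φ i)) tf.2.1 tf.2.2
      exact ⟨C1 * (1 + C3), by positivity, hC3.mono fun n hn k sk k1 k2 g a sg ga =>
        key k sk k1 k2 _ _ _ hn g a sg ga⟩
    choose! D D0 hD using h1
    have ev := (tendsto_add_atTop_nat N).eventually
      (((Filter.eventually_all_finset s).2 hD).and (hlam.eventually_gt_atTop 0))
    refine ⟨∑ i ∈ s, D i, Finset.sum_nonneg D0, ev.mono ?_⟩
    rintro m ⟨hn, hl⟩ k sk k1 k2 g a b sg ga gb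
    obtain ⟨n, hmn⟩ : ∃ n, n = m + N := ⟨_, rfl⟩
    rw [← hmn] at hn hl
    show |∫ p, (p.2 * k p.2) * deriv g p.1 ∂(jet vol Φ (u (m + N)) (E (m + N)))| ≤ _
    rw [← hmn]
    have cg := sg.continuous_deriv (by simp)
    have mF : Measurable fun p : ℝ × ℝ => (p.2 * k p.2) * deriv g p.1 :=
      (measurable_snd.mul (sk.continuous.measurable.comp measurable_snd)).mul
        (cg.measurable.comp measurable_fst)
    rw [jI n mF]
    have e1 := (T.int (F := fun x => (E n x * k (E n x)) * deriv g (u n x))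
      (((hE n).meas.mul (sk.continuous.measurable.comp (hE n).meas)).mul
        (cg.measurable.comp (hu n).meas)) fun i hi =>
      (te_jet (A i) (T.tf i hi) hl ((hu n).smooth i) ((hE n).eq i) cg sk.continuous).1).2
    have e2 : ∫ x, Φ x * ((u n x, E n x).2 * k (u n x, E n x).2 * deriv g (u n x, E n x).1) ∂vol =
      ∫ x, Φ x * ((E n x * k (E n x)) * deriv g (u n x)) ∂vol := rfl
    rw [e2, e1, Finset.sum_mul]
    refine (Finset.abs_sum_le_sum_abs _ _).trans (Finset.sum_le_sum fun i hi => ?_)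
    rw [(te_jet (A i) (T.tf i hi) hl ((hu n).smooth i) ((hE n).eq i) cg sk.continuous).2]
    exact hn i hi k sk k1 k2 g a sg ga
  · -- regularity away from zero
    have h1 : ∀ i ∈ s, ∃ D : ℝ, 0 ≤ D ∧ ∀ᶠ n in atTop, ∀ (g : ℝ → ℝ) (a b : ℝ), ContDiff ℝ ∞ g →
        (∀ x, |g x| ≤ a) → (∀ x, |deriv g x| ≤ b) →
        |∫ z, φ i z * (th (u n ((A i).c.symm z)) * deriv g (u n ((A i).c.symm z))) ∂(A i).m| ≤
          D * (√(a * b) + a) := fun i hi => chart_reg hlam hu hM i (T.tf i hi)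
    choose! D D0 hD using h1
    have ev := (tendsto_add_atTop_nat N).eventually ((Filter.eventually_all_finset s).2 hD)
    refine ⟨∑ i ∈ s, D i, Finset.sum_nonneg D0, ev.mono ?_⟩
    rintro m hn g a b sg ga gb
    obtain ⟨n, hmn⟩ : ∃ n, n = m + N := ⟨_, rfl⟩
    rw [← hmn] at hn
    show |∫ p, th p.1 * deriv g p.1 ∂(jet vol Φ (u (m + N)) (E (m + N)))| ≤ _
    rw [← hmn]
    have cg := sg.continuous_deriv (by simp)
    have mF : Measurable fun p : ℝ × ℝ => th p.1 * deriv g p.1 :=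
      (th_sm.continuous.measurable.comp measurable_fst).mul (cg.measurable.comp measurable_fst)
    rw [jI n mF]
    have b0 : 0 ≤ b := (abs_nonneg _).trans (gb 0)
    have e1 := (te_bdd T (F := fun x => th (u n x) * deriv g (u n x)) (K := b)
      ((th_sm.continuous.measurable.comp (hu n).meas).mul (cg.measurable.comp (hu n).meas))
      fun x => by
        rw [abs_mul]
        have := mul_le_mul (th_abs_le (u n x)) (gb (u n x)) (abs_nonneg _) zero_le_one
        linarith).2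
    have e2 : ∫ x, Φ x * (th (u n x, E n x).1 * deriv g (u n x, E n x).1) ∂vol =
      ∫ x, Φ x * (th (u n x) * deriv g (u n x)) ∂vol := rfl
    rw [e2, e1, Finset.sum_mul]
    refine (Finset.abs_sum_le_sum_abs _ _).trans (Finset.sum_le_sum fun i hi => ?_)
    exact hn i hi g a b sg ga gb

end

end Pool.Agent.N252.LL
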